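import Pool.Agent.HexTP.Exact

/-!
HexTP, module I: exponential decay of the arcs of a strip at the scale of its width.
-/

set_option autoImplicit false

namespace HexObs.TP

open Finset ENNReal

/-- half of the rate -/
noncomputable def rt : ℝ := -Real.log q1 / 4

lemma rt_pos : 0 < rt := by
  unfold rt
  have h1 : Real.log q1 < 0 := Real.log_neg q1_pos (by linarith [q1_le])
  linarith

lemma q1_pow_le {T r d m : ℕ} (hT : 1 ≤ T) (hr : d ≤ 2 * r) (hm : r < (m + 1) * T) :
    q1 ^ m ≤ q1⁻¹ * Real.exp (-(2 * rt) * ((d : ℝ) / T)) := by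
  have hq := q1_pos
  have hT0 : (0 : ℝ) < T := by exact_mod_cast hT
  have h1 : ((d : ℝ) / T) ≤ 2 * (m + 1) := by
    rw [div_le_iff₀ hT0]
    have h2 : d ≤ 2 * ((m + 1) * T) := by omega
    have h3 : (d : ℝ) ≤ 2 * (((m : ℝ) + 1) * T) := by exact_mod_cast h2
    linarith
  have h2 : q1 ^ m = q1⁻¹ * Real.exp (Real.log q1 * (m + 1)) := by
    have h3 : Real.exp (Real.log q1 * (m + 1)) = q1 ^ (m + 1) := by
      rw [Real.exp_mul, Real.exp_log hq]
      exact_mod_cast Real.rpow_natCast q1 (m + 1)
    rw [h3, pow_succ, mul_comm (q1 ^ m) q1, ← mul_assoc, inv_mul_cancel₀ hq.ne', one_mul]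
  rw [h2]
  apply mul_le_mul_of_nonneg_left _ (inv_nonneg.2 hq.le)
  apply Real.exp_le_exp.2
  have h3 := rt_pos
  have h4 : Real.log q1 = -(4 * rt) := by
    unfold rt
    ring
  rw [h4]
  nlinarith

/-- the constant -/
noncomputable def C2 : ℝ := C1 * Real.exp (2 * rt) + 18000 * q1⁻¹ * K0 / rt

lemma C2_pos : 0 < C2 := by
  have h1 := C1_pos
  have h2 := q1_pos
  have h3 := rt_pos
  have h4 : 0 < K0 := by linarith [K0_gt]
  unfold C2
  positivity

/-- exponential decay -/
theorem gT_exp {T d : ℕ} (hT : 1 ≤ T) (hd : 1 ≤ d) :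
    d * gT T d ≤ C2 * bT d * Real.exp (-rt * ((d : ℝ) / T)) := by
  have hr := rt_pos
  have hq := q1_pos
  have hK : 0 < K0 := by linarith [K0_gt]
  have hb := bT_pos hd
  have hT0 : (0 : ℝ) < T := by exact_mod_cast hT
  have hd0 : (0 : ℝ) < d := by exact_mod_cast hd
  have hC1 := C1_pos
  rcases Nat.lt_or_ge d (2 * T) with h | h
  · have h1 := gT_le hT hd
    have h2 : (d : ℝ) / T ≤ 2 := by
      rw [div_le_iff₀ hT0]
      exact_mod_cast h.le
    have h3 : 1 ≤ Real.exp (2 * rt) * Real.exp (-rt * ((d : ℝ) / T)) := by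
      rw [← Real.exp_add]
      apply Real.one_le_exp
      nlinarith
    have h4 : C1 * bT d ≤ C1 * Real.exp (2 * rt) * bT d * Real.exp (-rt * ((d : ℝ) / T)) := by
      calc C1 * bT d = C1 * bT d * 1 := by ring
        _ ≤ C1 * bT d * (Real.exp (2 * rt) * Real.exp (-rt * ((d : ℝ) / T))) := by gcongr
        _ = _ := by ring
    have h5 : 0 ≤ 18000 * q1⁻¹ * K0 / rt * bT d * Real.exp (-rt * ((d : ℝ) / T)) := by positivity
    unfold C2
    nlinarith
  · -- d ≥ 2 T
    set r := (d + 1) / 2 with hrdef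
    set m := r / T with hmdef
    have hr1 : d ≤ 2 * r := by omega
    have hr2 : 2 * r ≤ d + 1 := by omega
    have hrT : T ≤ r := by omega
    have hm1 : 1 ≤ m := (Nat.one_le_div_iff hT).2 hrT
    have hmr : m * T ≤ r := Nat.div_mul_le_self r T
    have hmr2 : r < (m + 1) * T := by
      have := Nat.lt_div_mul_add (a := r) (b := T) hT
      rw [add_mul, one_mul]
      exact this
    have hr0 : 1 ≤ r := by omega
    -- the sum over k in [r, d]
    have h1 : ∀ n : ℕ, ∑ y ∈ range n, gT T (r + y) ≤ (tail T r).toReal := by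
      intro n
      have h2 := head_tail hT (r - 1)
      have h3 := head_tail hT (r - 1 + n)
      have e1 : r - 1 + 1 = r := by omega
      have e2 : r - 1 + n + 1 = r + n := by omega
      rw [e1] at h2
      rw [e2, Finset.sum_range_add] at h3
      have h4 : ∑ y ∈ range n, gT T (r - 1 + y + 1) = ∑ y ∈ range n, gT T (r + y) := by
        apply Finset.sum_congr rfl
        intro y _
        congr 1
        omega
      rw [h4] at h3
      have h5 := tail_nonneg T (r + n)
      linarith
    have h2 : ((d - r + 1 : ℕ) : ℝ) * gT T d ≤ ∑ y ∈ range (d - r + 1), gT T (r + y) := by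
      have h3 : ∑ _y ∈ range (d - r + 1), gT T d ≤ ∑ y ∈ range (d - r + 1), gT T (r + y) := by
        apply Finset.sum_le_sum
        intro y hy
        rw [Finset.mem_range] at hy
        exact gT_anti hT (by omega) (by omega)
      rwa [Finset.sum_const, Finset.card_range, nsmul_eq_mul] at h3
    have h3 : (d : ℝ) / 2 ≤ ((d - r + 1 : ℕ) : ℝ) := by
      have : d ≤ 2 * (d - r + 1) := by omega
      have h4 : (d : ℝ) ≤ 2 * ((d - r + 1 : ℕ) : ℝ) := by exact_mod_cast this
      linarith
    have hg := gT_nonneg T d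
    have h4 : d * gT T d ≤ 2 * (tail T r).toReal := by
      have := h1 (d - r + 1)
      nlinarith
    have h5 := tail_exp hT hm1 hmr
    have h6 := q1_pow_le hT hr1 hmr2
    have h7 : bT T ≤ K0 * ((d : ℝ) / T) * bT d := by
      have h8 := bT_doub hT (show T ≤ d by omega)
      have h9 : bT T ≤ K0 * (d * bT d) / T := by
        rw [le_div_iff₀ hT0]
        linarith
      calc bT T ≤ K0 * (d * bT d) / T := h9
        _ = _ := by ring
    have hx0 : 0 < (d : ℝ) / T := by positivity
    set x : ℝ := (d : ℝ) / T with hx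
    -- x exp (-2 rt x) ≤ exp (- rt x) / rt
    have h8 : x * Real.exp (-(2 * rt) * x) ≤ Real.exp (-rt * x) / rt := by
      have h9 : rt * x ≤ Real.exp (rt * x) := by
        have := Real.add_one_le_exp (rt * x)
        linarith
      have h10 : Real.exp (-(2 * rt) * x) = Real.exp (-rt * x) * Real.exp (-(rt * x)) := by
        rw [← Real.exp_add]
        congr 1
        ring
      rw [h10, le_div_iff₀ hr]
      have h11 : Real.exp (rt * x) * Real.exp (-(rt * x)) = 1 := by
        rw [← Real.exp_add, add_neg_cancel, Real.exp_zero]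
      calc x * (Real.exp (-rt * x) * Real.exp (-(rt * x))) * rt =
          Real.exp (-rt * x) * ((rt * x) * Real.exp (-(rt * x))) := by ring
        _ ≤ Real.exp (-rt * x) * (Real.exp (rt * x) * Real.exp (-(rt * x))) := by gcongr
        _ = Real.exp (-rt * x) := by rw [h11, mul_one]
    have hbT := bT_nonneg T
    have h12 : (tail T r).toReal ≤ 9000 * (q1⁻¹ * Real.exp (-(2 * rt) * x)) * (K0 * x * bT d) := by
      refine h5.trans ?_
      have : (2 - Real.sqrt 2) ^ m = q1 ^ m := rfl
      rw [this]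
      gcongr
    have h13 : 9000 * (q1⁻¹ * Real.exp (-(2 * rt) * x)) * (K0 * x * bT d) ≤
        9000 * q1⁻¹ * K0 / rt * bT d * Real.exp (-rt * x) := by
      calc 9000 * (q1⁻¹ * Real.exp (-(2 * rt) * x)) * (K0 * x * bT d) =
          9000 * q1⁻¹ * K0 * bT d * (x * Real.exp (-(2 * rt) * x)) := by ring
        _ ≤ 9000 * q1⁻¹ * K0 * bT d * (Real.exp (-rt * x) / rt) := by gcongr
        _ = _ := by ring
    have h14 : 0 ≤ C1 * Real.exp (2 * rt) * bT d * Real.exp (-rt * x) := by positivity
    have h15 : C2 * bT d * Real.exp (-rt * x) = C1 * Real.exp (2 * rt) * bT d * Real.exp (-rt * x) +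
        2 * (9000 * q1⁻¹ * K0 / rt * bT d * Real.exp (-rt * x)) := by
      unfold C2
      ring
    rw [h15]
    linarith

end HexObs.TP
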