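import Pool.Agent.HexTP.Expo

/-!
HexTP, module J: the arcs of a strip as lists of sites of the brick wall; monotonicity.
-/

set_option autoImplicit false

namespace HexObs.TP

open HexObs.CC ENNReal

lemma arc_St_iff {T d : ℕ} {t : List Bool} : t ∈ Arc (St T) ∅ oo up (foot oo up d) ↔
    t ∈ Arc Hp ∅ oo up (foot oo up d) ∧ ∀ p ∈ toL oo t, p.2 ≤ T := by
  have h0 : lv oo = 0 := lv_oo
  constructor
  · intro ht
    have ht' : t ∈ Arc Hp ∅ oo up (foot oo up d) := ((inc_half d).2 t).2 ⟨T, ht⟩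
    refine ⟨ht', fun q hq => ?_⟩
    rw [mem_toL] at hq
    obtain ⟨p, ⟨i, h1, h2, rfl⟩, rfl⟩ := hq
    obtain ⟨⟨h3, h4, h5⟩, h6⟩ := ht
    rw [Set.sdiff_empty] at h3
    have h7 := h3.mem i h1 h2
    rw [← ps_ph (lv_vx_ne h0 t i), ps_mem_St] at h7
    exact h7.2
  · rintro ⟨ht, hrow⟩
    obtain ⟨⟨h3, h4, h5⟩, h6⟩ := ht
    rw [Set.sdiff_empty] at h3
    refine ⟨⟨?_, ?_, h5⟩, h6⟩
    · rw [Set.sdiff_empty]
      refine ⟨fun i h1 h2 => ?_, h3.inj⟩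
      have h7 := h3.mem i h1 h2
      rw [← ps_ph (lv_vx_ne h0 t i), ps_mem_Hp] at h7
      rw [← ps_ph (lv_vx_ne h0 t i), ps_mem_St]
      exact ⟨h7, hrow _ (mem_toL.2 ⟨_, ⟨i, h1, h2, rfl⟩, rfl⟩)⟩
    · intro h7
      exact h4 (St_sub T h7)

/-- the weight of the arcs of the strip of `T` rows -/
noncomputable def GS (T d : ℕ) : ℝ≥0∞ :=
  ∑' L : {L // ArcL (2 * d) L ∧ ∀ p ∈ L, p.2 ≤ T}, CC.wt L

theorem GS_eq {T d : ℕ} (hd : 1 ≤ d) : GS T d = GG T d := by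
  let f : Arc (St T) ∅ oo up (foot oo up d) → {L // ArcL (2 * d) L ∧ ∀ p ∈ L, p.2 ≤ (T : ℤ)} :=
    fun t => ⟨toL oo t.1, arc_toL (arc_St_iff.1 t.2).1, (arc_St_iff.1 t.2).2⟩
  have hf : Function.Bijective f := by
    constructor
    · intro t s h
      exact Subtype.ext (arc_toL_inj (arc_St_iff.1 t.2).1 (arc_St_iff.1 s.2).1
        (congrArg Subtype.val h))
    · rintro ⟨L, hL, hrow⟩
      obtain ⟨h1, h2⟩ := aW_spec hd hL
      refine ⟨⟨aW (2 * d) L, arc_St_iff.2 ⟨h1, ?_⟩⟩, Subtype.ext h2⟩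
      rw [h2]
      exact hrow
  have e : GG T d = gf (Arc (St T) ∅ oo up (foot oo up d)) := rfl
  rw [e]
  unfold GS gf
  rw [← (Equiv.ofBijective f hf).tsum_eq]
  apply tsum_congr
  intro t
  show CC.wt (toL oo t.1) = wE t.1
  exact CC.wt_toL _ _

end HexObs.TP
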