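import Pool.Agent.HexTP.StripL

/-!
HexTP, module K: the statement in elementary terms.
-/

set_option autoImplicit false

namespace HexTwoPoint

open ENNReal

/-- Nearest neighbours of the honeycomb lattice in brick wall coordinates: the sites are `ℤ × ℤ`,
`(x, y)` is joined to `(x + 1, y)`, and to `(x, y + 1)` if `x + y` is even. -/
def Edge (p q : ℤ × ℤ) : Prop :=
  q = (p.1 + 1, p.2) ∨ p = (q.1 + 1, q.2) ∨
    (q = (p.1, p.2 + 1) ∧ Even (p.1 + p.2)) ∨ (p = (q.1, q.2 + 1) ∧ Even (q.1 + q.2))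

/-- `L` lists the sites of a self-avoiding walk in the half plane `y ≥ 1` from `(0, 1)` to
`(2 * d, 1)`. -/
def Arc (d : ℕ) (L : List (ℤ × ℤ)) : Prop :=
  L.IsChain Edge ∧ L.Nodup ∧ (∀ p ∈ L, 1 ≤ p.2) ∧ L.head? = some (0, 1) ∧
    L.getLast? = some (2 * (d : ℤ), 1)

/-- The critical weight `(2 + sqrt 2) ^ (-n / 2)` of a walk with `n` sites. -/
noncomputable def wt (L : List (ℤ × ℤ)) : ℝ≥0∞ :=
  ENNReal.ofReal ((Real.sqrt (2 + Real.sqrt 2))⁻¹ ^ L.length)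

/-- The critical boundary two-point function of the half plane. -/
noncomputable def G (d : ℕ) : ℝ≥0∞ := ∑' L : {L // Arc d L}, wt L

/-- The same in the strip of the rows `1, ..., T`. -/
noncomputable def GS (T d : ℕ) : ℝ≥0∞ := ∑' L : {L // Arc d L ∧ ∀ p ∈ L, p.2 ≤ T}, wt L

theorem result_of (hB : ∃ C : ℝ, 0 < C ∧ ∀ T : ℕ, 1 ≤ T →
      (T : ℝ) ^ (-(1 / 4) : ℝ) / C ≤ HexObs.bT T ∧ HexObs.bT T ≤ C * (T : ℝ) ^ (-(1 / 4) : ℝ)) :
    ∃ c C : ℝ, 0 < c ∧ 0 < C ∧ ∀ d : ℕ, 1 ≤ d →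
      ENNReal.ofReal (c * (d : ℝ) ^ (-(5 / 4) : ℝ)) ≤ G d ∧
      G d ≤ ENNReal.ofReal (C * (d : ℝ) ^ (-(5 / 4) : ℝ)) ∧ G (d + 1) ≤ G d ∧
      ∀ T : ℕ, 1 ≤ T → GS T (d + 1) ≤ GS T d ∧
        GS T d ≤ ENNReal.ofReal (C * (d : ℝ) ^ (-(5 / 4) : ℝ) * Real.exp (-c * ((d : ℝ) / T))) ∧
        (C * d ≤ T → ENNReal.ofReal (c * (d : ℝ) ^ (-(5 / 4) : ℝ)) ≤ GS T d) := by
  have hG : ∀ d : ℕ, G d = HexObs.TP.G d := fun d => rfl
  have hGS : ∀ T d : ℕ, 1 ≤ d → GS T d = HexObs.GG T d := fun T d hd => HexObs.TP.GS_eq hd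
  obtain ⟨C₁, hC₁, h1⟩ := HexObs.TP.G_exact hB
  obtain ⟨C₂, hC₂, h2⟩ := hB
  obtain ⟨c₃, hc₃, A, hA, h3⟩ := HexObs.TP.gT_ge
  have hr := HexObs.TP.rt_pos
  have hK := HexObs.TP.C2_pos
  set c : ℝ := min (1 / C₁) (min HexObs.TP.rt (c₃ / C₂)) with hc
  set C : ℝ := max C₁ (max (HexObs.TP.C2 * C₂) A) with hC
  have hc0 : 0 < c := by
    rw [hc]
    refine lt_min (by positivity) (lt_min hr (by positivity))
  have hC0 : 0 < C := lt_of_lt_of_le hC₁ (le_max_left _ _)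
  refine ⟨c, C, hc0, hC0, fun d hd => ?_⟩
  have hd0 : (0 : ℝ) < d := by exact_mod_cast hd
  have hp : 0 < (d : ℝ) ^ (-(5 / 4) : ℝ) := Real.rpow_pos_of_pos hd0 _
  have hp4 : 0 < (d : ℝ) ^ (-(1 / 4) : ℝ) := Real.rpow_pos_of_pos hd0 _
  have e : (d : ℝ) ^ (-(5 / 4) : ℝ) = (d : ℝ) ^ (-(1 / 4) : ℝ) / d := by
    rw [show (-(5 / 4) : ℝ) = -(1 / 4) - 1 by norm_num, Real.rpow_sub hd0, Real.rpow_one]
  obtain ⟨h4, h5⟩ := h1 d hd
  obtain ⟨h6, h7⟩ := h2 d hd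
  refine ⟨?_, ?_, ?_, fun T hT => ⟨?_, ?_, fun hTd => ?_⟩⟩
  · rw [hG]
    refine le_trans (ENNReal.ofReal_le_ofReal ?_) h4
    have h8 : c ≤ 1 / C₁ := min_le_left _ _
    calc c * (d : ℝ) ^ (-(5 / 4) : ℝ) ≤ 1 / C₁ * (d : ℝ) ^ (-(5 / 4) : ℝ) := by gcongr
      _ = (d : ℝ) ^ (-(5 / 4) : ℝ) / C₁ := by ring
  · rw [hG]
    refine h5.trans (ENNReal.ofReal_le_ofReal ?_)
    apply mul_le_mul_of_nonneg_right _ hp.le
    exact le_max_left _ _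
  · rw [hG, hG]
    show HexObs.TP.G (d + 1) ≤ HexObs.TP.G d
    unfold HexObs.TP.G
    rw [HexObs.TP.sum_arcL hd, HexObs.TP.sum_arcL (show 1 ≤ d + 1 by omega)]
    exact HexObs.TP.GH_anti hd
  · rw [hGS T d hd, hGS T (d + 1) (by omega)]
    exact HexObs.TP.GG_anti hT hd
  · rw [hGS T d hd, ← ENNReal.ofReal_toReal (HexObs.TP.GG_ne_top hT d)]
    apply ENNReal.ofReal_le_ofReal
    have h8 := HexObs.TP.gT_exp hT hd
    have hT0 : (0 : ℝ) < T := by exact_mod_cast hT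
    have h9 : HexObs.TP.gT T d ≤ HexObs.TP.C2 * HexObs.bT d *
        Real.exp (-HexObs.TP.rt * ((d : ℝ) / T)) / d := by
      rw [le_div_iff₀ hd0]
      linarith
    have h10 : HexObs.TP.C2 * HexObs.bT d ≤ C * (d : ℝ) ^ (-(1 / 4) : ℝ) := by
      calc HexObs.TP.C2 * HexObs.bT d ≤ HexObs.TP.C2 * (C₂ * (d : ℝ) ^ (-(1 / 4) : ℝ)) := by gcongr
        _ = HexObs.TP.C2 * C₂ * (d : ℝ) ^ (-(1 / 4) : ℝ) := by ring
        _ ≤ C * (d : ℝ) ^ (-(1 / 4) : ℝ) := by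
          apply mul_le_mul_of_nonneg_right _ hp4.le
          exact (le_max_left _ _).trans (le_max_right _ _)
    have h11 : Real.exp (-HexObs.TP.rt * ((d : ℝ) / T)) ≤ Real.exp (-c * ((d : ℝ) / T)) := by
      apply Real.exp_le_exp.2
      apply mul_le_mul_of_nonneg_right _ (by positivity)
      have : c ≤ HexObs.TP.rt := (min_le_right _ _).trans (min_le_left _ _)
      linarith
    calc HexObs.TP.gT T d ≤ HexObs.TP.C2 * HexObs.bT d *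
        Real.exp (-HexObs.TP.rt * ((d : ℝ) / T)) / d := h9
      _ ≤ C * (d : ℝ) ^ (-(1 / 4) : ℝ) * Real.exp (-c * ((d : ℝ) / T)) / d := by
        apply div_le_div_of_nonneg_right _ hd0.le
        exact mul_le_mul h10 h11 (Real.exp_pos _).le (by positivity)
      _ = C * (d : ℝ) ^ (-(5 / 4) : ℝ) * Real.exp (-c * ((d : ℝ) / T)) := by
        rw [e]
        ring
  · rw [hGS T d hd, ← ENNReal.ofReal_toReal (HexObs.TP.GG_ne_top hT d)]
    apply ENNReal.ofReal_le_ofReal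
    have h8 : (A : ℝ) * d ≤ T := by
      refine le_trans ?_ hTd
      apply mul_le_mul_of_nonneg_right _ hd0.le
      exact (le_max_right _ _).trans (le_max_right _ _)
    have h9 := h3 d T hd (by exact_mod_cast h8)
    have h10 : c ≤ c₃ / C₂ := (min_le_right _ _).trans (min_le_right _ _)
    have h11 : c * (d : ℝ) ^ (-(1 / 4) : ℝ) ≤ c₃ * HexObs.bT d := by
      calc c * (d : ℝ) ^ (-(1 / 4) : ℝ) ≤ c₃ / C₂ * (d : ℝ) ^ (-(1 / 4) : ℝ) := by gcongr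
        _ = c₃ * ((d : ℝ) ^ (-(1 / 4) : ℝ) / C₂) := by ring
        _ ≤ c₃ * HexObs.bT d := by gcongr
    rw [e]
    calc c * ((d : ℝ) ^ (-(1 / 4) : ℝ) / d) = c * (d : ℝ) ^ (-(1 / 4) : ℝ) / d := by ring
      _ ≤ d * HexObs.TP.gT T d / d := by
        apply div_le_div_of_nonneg_right _ hd0.le
        linarith
      _ = HexObs.TP.gT T d := by field_simp

end HexTwoPoint
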