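import Pool.Agent.HexTP.Lists

/-!
HexTP, module H: the exact exponent of the boundary two-point function from the exact exponent of the bridges.
-/

set_option autoImplicit false

namespace HexObs.TP

open ENNReal

/-- if B_T is comparable with T^(-1/4) then the two-point function is comparable with d^(-5/4) -/
theorem gH_exact (hB : ∃ C : ℝ, 0 < C ∧ ∀ T : ℕ, 1 ≤ T →
      (T : ℝ) ^ (-(1 / 4) : ℝ) / C ≤ bT T ∧ bT T ≤ C * (T : ℝ) ^ (-(1 / 4) : ℝ)) :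
    ∃ C : ℝ, 0 < C ∧ ∀ d : ℕ, 1 ≤ d →
      (d : ℝ) ^ (-(5 / 4) : ℝ) / C ≤ gH d ∧ gH d ≤ C * (d : ℝ) ^ (-(5 / 4) : ℝ) := by
  obtain ⟨A, hA, hB⟩ := hB
  obtain ⟨c, C, hc, hC, h⟩ := two_point
  refine ⟨A / c + C * A, by positivity, fun d hd => ?_⟩
  have hd0 : (0 : ℝ) < d := by exact_mod_cast hd
  obtain ⟨h1, h2⟩ := h d hd
  obtain ⟨h3, h4⟩ := hB d hd
  have e : (d : ℝ) ^ (-(5 / 4) : ℝ) = (d : ℝ) ^ (-(1 / 4) : ℝ) / d := by
    rw [show (-(5 / 4) : ℝ) = -(1 / 4) - 1 by norm_num, Real.rpow_sub hd0, Real.rpow_one]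
  have hp : 0 < (d : ℝ) ^ (-(1 / 4) : ℝ) := Real.rpow_pos_of_pos hd0 _
  rw [e]
  constructor
  · calc (d : ℝ) ^ (-(1 / 4) : ℝ) / d / (A / c + C * A) ≤ (d : ℝ) ^ (-(1 / 4) : ℝ) / d / (A / c) := by
          apply div_le_div_of_nonneg_left (by positivity) (by positivity)
          have : 0 ≤ C * A := by positivity
          linarith
      _ = c * ((d : ℝ) ^ (-(1 / 4) : ℝ) / A) / d := by
          field_simp
      _ ≤ c * bT d / d := by gcongr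
      _ ≤ gH d := h1
  · calc gH d ≤ C * bT d / d := h2
      _ ≤ C * (A * (d : ℝ) ^ (-(1 / 4) : ℝ)) / d := by gcongr
      _ = C * A * ((d : ℝ) ^ (-(1 / 4) : ℝ) / d) := by ring
      _ ≤ (A / c + C * A) * ((d : ℝ) ^ (-(1 / 4) : ℝ) / d) := by
          apply mul_le_mul_of_nonneg_right _ (by positivity)
          have : 0 ≤ A / c := by positivity
          linarith

/-- the same for the brick wall -/
theorem G_exact (hB : ∃ C : ℝ, 0 < C ∧ ∀ T : ℕ, 1 ≤ T →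
      (T : ℝ) ^ (-(1 / 4) : ℝ) / C ≤ bT T ∧ bT T ≤ C * (T : ℝ) ^ (-(1 / 4) : ℝ)) :
    ∃ C : ℝ, 0 < C ∧ ∀ d : ℕ, 1 ≤ d →
      ENNReal.ofReal ((d : ℝ) ^ (-(5 / 4) : ℝ) / C) ≤ G d ∧ G d ≤ ENNReal.ofReal (C * (d : ℝ) ^ (-(5 / 4) : ℝ)) := by
  obtain ⟨C, hC, h⟩ := gH_exact hB
  refine ⟨C, hC, fun d hd => ?_⟩
  have e1 : G d = ENNReal.ofReal (gH d) := by
    unfold G gH
    rw [sum_arcL hd, ENNReal.ofReal_toReal (GH_ne_top hd)]
  rw [e1]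
  exact ⟨ENNReal.ofReal_le_ofReal (h d hd).1, ENNReal.ofReal_le_ofReal (h d hd).2⟩

end HexObs.TP
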