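import Pool.Agent.HexTP.Lower

/-!
HexTP, module F: the boundary two-point function of the half plane is comparable with B_d / d.
-/

set_option autoImplicit false

namespace HexObs.TP

open Complex Finset ENNReal HexObs HexW

/-- the half plane above the base line -/
def Hp : Set Pt := {v | IsHex oo up v ∧ 0 < ip (v - oo) up}

/-- the boundary two-point function of the half plane: weight of the arcs from the foot 0 to the foot k -/
noncomputable def GH (k : ℕ) : ℝ≥0∞ := gf (Arc Hp ∅ oo up (foot oo up k))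

lemma St_sub (T : ℕ) : St T ⊆ Hp := fun _ hv => ⟨hv.1, hv.2.1⟩

lemma foot_notMem (k : ℤ) : foot oo up k ∉ Hp := by
  intro h5
  have h6 : 0 < ip (foot oo up k - oo) up := h5.2
  rw [k4_foot] at h6
  have h8 : ip (((2 * (k : ℤ), -(k : ℤ)) : Pt) - oo) up = 0 := by
    unfold ip up oo
    simp only [Prod.fst_sub, Prod.snd_sub]
    ring
  rw [h8] at h6
  exact lt_irrefl _ h6

/-- the arcs of the half plane are the arcs of the strips -/
lemma inc_half (k : ℕ) : Inc (fun T => Arc (St T) ∅ oo up (foot oo up k)) (Arc Hp ∅ oo up (foot oo up k)) := by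
  constructor
  · intro S T h
    exact arc_mono h
  · intro t
    constructor
    · rintro ⟨⟨h1, h2, h3⟩, h4⟩
      rw [Set.sdiff_empty] at h1
      -- the height of the word
      obtain ⟨T, hT⟩ : ∃ T : ℕ, ∀ i, i ≤ t.length → ip (vx oo up t i - oo) up < 3 * T + 2 := by
        refine ⟨∑ i ∈ Finset.range (t.length + 1), (ip (vx oo up t i - oo) up).natAbs, ?_⟩
        intro i hi
        have h5 := Finset.single_le_sum (f := fun i => (ip (vx oo up t i - oo) up).natAbs)
          (fun _ _ => Nat.zero_le _) (Finset.mem_range.2 (show i < t.length + 1 by omega))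
        omega
      refine ⟨T, ⟨?_, ?_, h3⟩, h4⟩
      · rw [Set.sdiff_empty]
        refine ⟨fun i h5 h6 => ?_, h1.inj⟩
        have h7 := h1.mem i h5 h6
        exact ⟨h7.1, h7.2, hT i h6⟩
      · intro h5
        exact h2 (St_sub T h5)
    · rintro ⟨T, ⟨h1, h2, h3⟩, h4⟩
      rw [Set.sdiff_empty] at h1
      refine ⟨⟨?_, ?_, h3⟩, h4⟩
      · rw [Set.sdiff_empty]
        exact h1.mono (St_sub T)
      · rw [h4]
        exact foot_notMem _

lemma GH_eq (k : ℕ) : GH k = ⨆ T : ℕ, GG T k := (inc_half k).gf_eq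

lemma GG_le_GH (T k : ℕ) : GG T k ≤ GH k := by
  rw [GH_eq]
  exact le_iSup (fun T => GG T k) T

/-- the two-point function as a real number -/
noncomputable def gH (k : ℕ) : ℝ := (GH k).toReal

lemma GH_le {k : ℕ} (hk : 1 ≤ k) : GH k ≤ ENNReal.ofReal (C1 * bT k / k) := by
  rw [GH_eq]
  apply iSup_le
  intro T
  have hk0 : (0 : ℝ) < k := by exact_mod_cast hk
  have h1 : GG T k ≤ GG (max T 1) k := GG_mono (le_max_left _ _) k
  refine h1.trans ?_
  have h2 := gT_le (S := max T 1) (le_max_right _ _) hk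
  rw [← ENNReal.ofReal_toReal (GG_ne_top (le_max_right T 1) k)]
  apply ENNReal.ofReal_le_ofReal
  show gT (max T 1) k ≤ _
  rw [le_div_iff₀ hk0]
  linarith

lemma GH_ne_top {k : ℕ} (hk : 1 ≤ k) : GH k ≠ ∞ := ne_top_of_le_ne_top ENNReal.ofReal_ne_top (GH_le hk)

/-- the two-point function decreases -/
theorem GH_anti {k : ℕ} (hk : 1 ≤ k) : GH (k + 1) ≤ GH k := by
  rw [GH_eq, GH_eq]
  apply iSup_le
  intro T
  have h1 : GG T (k + 1) ≤ GG (max T 1) (k + 1) := GG_mono (le_max_left _ _) _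
  exact (h1.trans (GG_anti (le_max_right _ _) hk)).trans (le_iSup (fun T => GG T k) (max T 1))

theorem gH_anti {k : ℕ} (hk : 1 ≤ k) : gH (k + 1) ≤ gH k := ENNReal.toReal_mono (GH_ne_top hk) (GH_anti hk)

/-- upper bound -/
theorem gH_le {d : ℕ} (hd : 1 ≤ d) : d * gH d ≤ C1 * bT d := by
  have hd0 : (0 : ℝ) < d := by exact_mod_cast hd
  have h1 := ENNReal.toReal_mono ENNReal.ofReal_ne_top (GH_le hd)
  have h2 : 0 ≤ C1 * bT d / d := by
    have := C1_pos
    have := bT_nonneg d
    positivity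
  rw [ENNReal.toReal_ofReal h2, le_div_iff₀ hd0] at h1
  unfold gH
  linarith

/-- lower bound -/
theorem gH_ge : ∃ c : ℝ, 0 < c ∧ ∀ d : ℕ, 1 ≤ d → c * bT d ≤ d * gH d := by
  obtain ⟨c, hc, A, hA, h⟩ := gT_ge
  refine ⟨c, hc, fun d hd => ?_⟩
  have h1 := h d (A * d) hd le_rfl
  have h2 : gT (A * d) d ≤ gH d := ENNReal.toReal_mono (GH_ne_top hd) (GG_le_GH _ _)
  have hd0 : (0 : ℝ) ≤ d := by positivity
  exact h1.trans (mul_le_mul_of_nonneg_left h2 hd0)

/-- the boundary two-point function of the half plane is comparable with B_d / d -/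
theorem two_point : ∃ c C : ℝ, 0 < c ∧ 0 < C ∧ ∀ d : ℕ, 1 ≤ d → c * bT d / d ≤ gH d ∧ gH d ≤ C * bT d / d := by
  obtain ⟨c, hc, h⟩ := gH_ge
  refine ⟨c, C1, hc, C1_pos, fun d hd => ?_⟩
  have hd0 : (0 : ℝ) < d := by exact_mod_cast hd
  have h1 := h d hd
  have h2 := gH_le hd
  rw [div_le_iff₀ hd0, le_div_iff₀ hd0]
  constructor <;> linarith

end HexObs.TP
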