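import Pool.Agent.HexTP.Half
import Pool.Agent.W47.Bridge

/-!
HexTP, module G: the boundary two-point function as a sum over lists of sites of the brick wall.
-/

set_option autoImplicit false

namespace HexObs.TP

open HexObs.CC ENNReal

/-- `L` lists the sites of a self-avoiding walk in the rows `1, 2, ...` from `(0, 1)` to `(b, 1)`. -/
def ArcL (b : ℤ) (L : List (ℤ × ℤ)) : Prop :=
  L.IsChain Edge ∧ L.Nodup ∧ (∀ p ∈ L, 1 ≤ p.2) ∧ L.head? = some (0, 1) ∧ L.getLast? = some (b, 1)

lemma mem_Hp {p : Pt} : p ∈ Hp ↔ lv p % 3 ≠ 1 ∧ 0 < lv p := by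
  constructor
  · intro h
    obtain ⟨T, hT⟩ : ∃ T : ℕ, lv p < 3 * T + 2 := ⟨(lv p).natAbs, by omega⟩
    have h1 : p ∈ St T := ⟨h.1, h.2, by rw [ip_up]; exact hT⟩
    have h2 := CC.mem_St.1 h1
    exact ⟨h2.1, h2.2.1⟩
  · rintro ⟨h1, h2⟩
    obtain ⟨T, hT⟩ : ∃ T : ℕ, lv p < 3 * T + 2 := ⟨(lv p).natAbs, by omega⟩
    exact St_sub T (CC.mem_St.2 ⟨h1, h2, hT⟩)

lemma ps_mem_Hp {q : ℤ × ℤ} : ps q ∈ Hp ↔ 1 ≤ q.2 := by
  rw [mem_Hp]
  have h0 := lv_ps_mod q
  by_cases h : (q.1 + q.2) % 2 = 0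
  · have h1 := lv_ps_even h
    constructor
    · rintro ⟨_, h2⟩
      omega
    · intro h2
      exact ⟨h0, by omega⟩
  · have h1 := lv_ps_odd h
    constructor
    · rintro ⟨_, h2⟩
      omega
    · intro h2
      exact ⟨h0, by omega⟩

lemma arc_data {d : ℕ} {t : List Bool} (ht : t ∈ Arc Hp ∅ oo up (foot oo up d)) :
    Saw Hp oo up t ∧ dx up t t.length = -up ∧ tip oo up t = (2 * (d : ℤ), -(d : ℤ)) ∧ 1 ≤ t.length := by
  obtain ⟨⟨h1, h2, h3⟩, h4⟩ := ht
  rw [Set.sdiff_empty] at h1
  refine ⟨h1, h3, by rw [h4, k4_foot], ?_⟩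
  by_contra hcon
  have hz : t.length = 0 := by omega
  rw [hz] at h3
  have h5 : up = -up := h3
  exact absurd h5 (by decide)

lemma arc_last {d : ℕ} {t : List Bool} (ht : t ∈ Arc Hp ∅ oo up (foot oo up d)) :
    vx oo up t t.length = (2 * (d : ℤ), -(d : ℤ) + 1) := by
  obtain ⟨h1, h2, h3, h4⟩ := arc_data ht
  have h5 : tip oo up t = vx oo up t t.length + dx up t t.length := rfl
  rw [h2, h3] at h5
  have h6 : vx oo up t t.length = ((2 * (d : ℤ), -(d : ℤ)) : Pt) + up := by
    rw [h5]
    abel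
  rw [h6]
  unfold up
  ext
  · show 2 * (d : ℤ) + 0 = 2 * d
    ring
  · rfl

theorem arc_toL {d : ℕ} {t : List Bool} (ht : t ∈ Arc Hp ∅ oo up (foot oo up d)) :
    ArcL (2 * d) (toL oo t) := by
  obtain ⟨⟨hmem, hinj⟩, hdx, htip, hn⟩ := arc_data ht
  have hlast := arc_last ht
  have h0 : lv oo = 0 := lv_oo
  have hL := toL_length oo t
  refine ⟨?_, ?_, ?_, ?_, ?_⟩
  · rw [List.isChain_iff_getElem]
    intro i hi
    rw [toL_getElem, toL_getElem]
    exact edge_vx h0 t (i + 1)
  · rw [List.nodup_iff_injective_getElem]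
    intro i j hij
    simp only at hij
    rw [toL_getElem, toL_getElem] at hij
    have h1 := ph_inj (lv_vx_ne h0 t _) (lv_vx_ne h0 t _) hij
    have hi := i.2
    have hj := j.2
    rcases lt_trichotomy i.1 j.1 with h | h | h
    · exact absurd h1 (hinj _ _ (by omega) (by omega))
    · exact Fin.ext h
    · exact absurd h1.symm (hinj _ _ (by omega) (by omega))
  · intro q hq
    rw [mem_toL] at hq
    obtain ⟨p, ⟨i, h1, h2, rfl⟩, rfl⟩ := hq
    have h3 := hmem i h1 h2
    rw [← ps_ph (lv_vx_ne h0 t i), ps_mem_Hp] at h3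
    exact h3
  · rw [List.head?_eq_getElem?, List.getElem?_eq_getElem (by omega), toL_getElem]
    show some (ph (oo + up)) = _
    congr 1
  · rw [List.getLast?_eq_getElem?, hL, List.getElem?_eq_getElem (by omega), toL_getElem]
    have h1 : t.length - 1 + 1 = t.length := by omega
    rw [h1, hlast]
    congr 1
    unfold ph
    ext
    · rfl
    · show (2 * (d : ℤ) + 2 * (-(d : ℤ) + 1) + 1) / 3 = 1
      omega

theorem arc_toL_inj {d : ℕ} {t s : List Bool} (ht : t ∈ Arc Hp ∅ oo up (foot oo up d))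
    (hs : s ∈ Arc Hp ∅ oo up (foot oo up d)) (h : toL oo t = toL oo s) : t = s := by
  have h0 : lv oo = 0 := lv_oo
  have hl : t.length = s.length := by
    rw [← toL_length oo t, ← toL_length oo s, h]
  have hv : ∀ i, i ≤ t.length → vx oo up t i = vx oo up s i := by
    intro i hi
    rcases Nat.eq_zero_or_pos i with rfl | hpos
    · rfl
    · have h1 : (toL oo t)[i - 1]'(by rw [toL_length]; omega) =
          (toL oo s)[i - 1]'(by rw [toL_length]; omega) := by
        congr 1
      rw [toL_getElem, toL_getElem] at h1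
      have e : i - 1 + 1 = i := by omega
      rw [e] at h1
      exact ph_inj (lv_vx_ne h0 t _) (lv_vx_ne h0 s _) h1
  have hd : ∀ i, i ≤ t.length → dx up t i = dx up s i := by
    intro i hi
    rcases lt_or_eq_of_le hi with hlt | rfl
    · have h1 := hv (i + 1) (by omega)
      rw [vx_succ, vx_succ, hv i hi] at h1
      exact add_left_cancel h1
    · rw [(arc_data ht).2.1]
      have := (arc_data hs).2.1
      rw [← hl] at this
      exact this.symm
  apply tf_ext hl
  intro i hi
  have h1 := hd (i + 1) (by omega)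
  rw [dx_succ, dx_succ, hd i (by omega)] at h1
  exact turn_bool_inj (dx_mem up_dir s i) h1

/-- the sites with the foot in front and the foot behind -/
def gA (b : ℤ) (L : List (ℤ × ℤ)) (i : ℕ) : ℤ × ℤ := ((0, 0) :: L).getD i (b, 0)

/-- the points -/
def qA (b : ℤ) (L : List (ℤ × ℤ)) (i : ℕ) : Pt := ps (gA b L i)

/-- the word -/
def aW (b : ℤ) (L : List (ℤ × ℤ)) : List Bool :=
  (List.range L.length).map (fun i =>
    decide (qA b L (i + 2) - qA b L (i + 1) = rotL (qA b L (i + 1) - qA b L i)))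

section

variable {b : ℤ} {L : List (ℤ × ℤ)}

lemma aW_length : (aW b L).length = L.length := by
  unfold aW
  rw [List.length_map, List.length_range]

lemma tf_aW {i : ℕ} (h : i < L.length) : tf (aW b L) i =
    decide (qA b L (i + 2) - qA b L (i + 1) = rotL (qA b L (i + 1) - qA b L i)) := by
  unfold tf
  rw [List.getD_eq_getElem _ _ (by rw [aW_length]; exact h)]
  unfold aW
  rw [List.getElem_map, List.getElem_range]

lemma gA_zero : gA b L 0 = (0, 0) := rfl

lemma gA_succ {i : ℕ} (h : i < L.length) : gA b L (i + 1) = L[i] := by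
  unfold gA
  rw [List.getD_cons_succ, List.getD_eq_getElem _ _ h]

lemma gA_last {i : ℕ} (h : L.length < i) : gA b L i = (b, 0) := by
  unfold gA
  rw [List.getD_eq_default]
  rw [List.length_cons]
  omega

lemma arcL_pos (hc : ArcL b L) : 1 ≤ L.length := by
  by_contra hcon
  have h1 : L = [] := List.length_eq_zero_iff.1 (by omega)
  have h2 := hc.2.2.2.1
  rw [h1] at h2
  simp at h2

lemma gA_first (hc : ArcL b L) : gA b L 1 = (0, 1) := by
  have hpos := arcL_pos hc
  have h2 := hc.2.2.2.1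
  rw [List.head?_eq_getElem?, List.getElem?_eq_getElem (by omega)] at h2
  rw [gA_succ (by omega : 0 < L.length)]
  exact Option.some.inj h2

lemma gA_len (hc : ArcL b L) : gA b L L.length = (b, 1) := by
  have hpos := arcL_pos hc
  have h2 := hc.2.2.2.2
  rw [List.getLast?_eq_getElem?, List.getElem?_eq_getElem (by omega)] at h2
  obtain ⟨n, hn⟩ : ∃ n, L.length = n + 1 := ⟨L.length - 1, by omega⟩
  have h3 : L[L.length - 1]'(by omega) = (b, 1) := Option.some.inj h2
  have h4 : gA b L (L.length - 1 + 1) = L[L.length - 1]'(by omega) := gA_succ (by omega)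
  have h5 : L.length - 1 + 1 = L.length := by omega
  rw [h5] at h4
  rw [h4, h3]

lemma gA_edge (hb : Even b) (hc : ArcL b L) (i : ℕ) (hi : i ≤ L.length) :
    Edge (gA b L i) (gA b L (i + 1)) := by
  have hpos := arcL_pos hc
  rcases Nat.eq_zero_or_pos i with rfl | h0
  · rw [gA_zero, gA_first hc]
    right; right; left
    exact ⟨rfl, by decide⟩
  · rcases lt_or_eq_of_le hi with hlt | rfl
    · have h1 := hc.1
      rw [List.isChain_iff_getElem] at h1
      have h2 := h1 (i - 1) (by omega)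
      have h3 : gA b L (i - 1 + 1) = L[i - 1]'(by omega) := gA_succ (by omega)
      have h4 : gA b L (i - 1 + 1 + 1) = L[i - 1 + 1]'(by omega) := gA_succ (by omega)
      rw [← h3, ← h4] at h2
      have e : i - 1 + 1 = i := by omega
      rw [e] at h2
      exact h2
    · rw [gA_len hc, gA_last (Nat.lt_succ_self _)]
      right; right; right
      exact ⟨rfl, by simpa using hb⟩

lemma gA_parity (hb : Even b) (hc : ArcL b L) (i : ℕ) (hi : i ≤ L.length + 1) :
    (((gA b L i).1 + (gA b L i).2) % 2 = 0 ↔ Even i) := by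
  induction i with
  | zero =>
    rw [gA_zero]
    exact ⟨fun _ => Even.zero, fun _ => rfl⟩
  | succ i ih =>
    have h1 := ih (by omega)
    have h2 := gA_edge hb hc i (by omega)
    by_cases he : Even i
    · have h3 := ps_step_even h2 (h1.2 he)
      constructor
      · intro h
        exact absurd h h3.1
      · intro h
        rw [Nat.even_add_one] at h
        exact absurd he h
    · have h3 := ps_step_odd h2 (fun h => he (h1.1 h))
      constructor
      · intro _
        rw [Nat.even_add_one]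
        exact he
      · intro _
        exact h3.1

lemma gA_row (hc : ArcL b L) (i : ℕ) (h1 : 1 ≤ i) (h2 : i ≤ L.length) : 1 ≤ (gA b L i).2 := by
  obtain ⟨j, rfl⟩ : ∃ j, i = j + 1 := ⟨i - 1, by omega⟩
  rw [gA_succ (by omega)]
  exact hc.2.2.1 _ (List.getElem_mem _)

lemma gA_inj (hb : b ≠ 0) (hc : ArcL b L) (i k : ℕ) (h1 : i < k) (h2 : k ≤ L.length + 1) :
    gA b L i ≠ gA b L k := by
  intro heq
  rcases Nat.eq_zero_or_pos i with rfl | h0
  · rw [gA_zero] at heq
    rcases lt_or_eq_of_le h2 with hlt | rfl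
    · have h3 := gA_row hc k (by omega) (by omega)
      rw [← heq] at h3
      simp only at h3
      omega
    · rw [gA_last (Nat.lt_succ_self _)] at heq
      simp only [Prod.mk.injEq] at heq
      exact hb heq.1.symm
  · rcases lt_or_eq_of_le h2 with hlt | rfl
    · obtain ⟨i', rfl⟩ : ∃ j, i = j + 1 := ⟨i - 1, by omega⟩
      obtain ⟨k', rfl⟩ : ∃ j, k = j + 1 := ⟨k - 1, by omega⟩
      rw [gA_succ (by omega), gA_succ (by omega)] at heq
      have h3 := (List.Nodup.getElem_inj_iff hc.2.1).1 heq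
      omega
    · have h3 := gA_row hc i (by omega) (by omega)
      rw [heq, gA_last (Nat.lt_succ_self _)] at h3
      simp only at h3
      omega

lemma qA_step_even (hb : Even b) (hc : ArcL b L) {i : ℕ} (hi : i ≤ L.length) (he : Even i) :
    qA b L (i + 1) - qA b L i = up ∨ qA b L (i + 1) - qA b L i = (-1, 0) ∨
      qA b L (i + 1) - qA b L i = (1, -1) :=
  (ps_step_even (gA_edge hb hc i hi) ((gA_parity hb hc i (by omega)).2 he)).2

lemma qA_step_odd (hb : Even b) (hc : ArcL b L) {i : ℕ} (hi : i ≤ L.length) (he : ¬ Even i) :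
    qA b L (i + 1) - qA b L i = (0, -1) ∨ qA b L (i + 1) - qA b L i = (1, 0) ∨
      qA b L (i + 1) - qA b L i = (-1, 1) :=
  (ps_step_odd (gA_edge hb hc i hi) (fun h => he ((gA_parity hb hc i (by omega)).1 h))).2

lemma qA_turn (hb : Even b) (hb0 : b ≠ 0) (hc : ArcL b L) {i : ℕ} (hi : i < L.length) :
    qA b L (i + 2) - qA b L (i + 1) =
      turn (tf (aW b L) i) (qA b L (i + 1) - qA b L i) := by
  have hne : qA b L (i + 2) - qA b L (i + 1) ≠ -(qA b L (i + 1) - qA b L i) := by
    intro h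
    have h1 : qA b L (i + 2) = qA b L i := by
      have : qA b L (i + 2) = -(qA b L (i + 1) - qA b L i) + qA b L (i + 1) := by
        rw [← h]
        abel
      rw [this]
      abel
    exact gA_inj hb0 hc i (i + 2) (by omega) (by omega) (ps_inj h1).symm
  rw [tf_aW hi]
  have key : ∀ d d' : Pt, ((d = up ∨ d = (-1, 0) ∨ d = (1, -1)) ∧
      (d' = (0, -1) ∨ d' = (1, 0) ∨ d' = (-1, 1)) ∨
      (d = (0, -1) ∨ d = (1, 0) ∨ d = (-1, 1)) ∧ (d' = up ∨ d' = (-1, 0) ∨ d' = (1, -1))) →
      d' ≠ -d → d' = turn (decide (d' = rotL d)) d := by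
    rintro d d' (⟨h1, h2⟩ | ⟨h1, h2⟩) <;> rcases h1 with rfl | rfl | rfl <;>
      rcases h2 with rfl | rfl | rfl <;> decide
  apply key _ _ _ hne
  by_cases he : Even i
  · left
    exact ⟨qA_step_even hb hc hi.le he,
      qA_step_odd hb hc (by omega) (by rw [Nat.even_add_one]; exact fun h => h he)⟩
  · right
    exact ⟨qA_step_odd hb hc hi.le he, qA_step_even hb hc (by omega) (by rw [Nat.even_add_one]; exact he)⟩

lemma qA_zero : qA b L 0 = oo := by
  unfold qA
  rw [gA_zero]
  decide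

lemma qA_one (hc : ArcL b L) : qA b L 1 = oo + up := by
  unfold qA
  rw [gA_first hc]
  decide

lemma dx_aW (hb : Even b) (hb0 : b ≠ 0) (hc : ArcL b L) (i : ℕ)
    (hi : i ≤ L.length) : dx up (aW b L) i = qA b L (i + 1) - qA b L i := by
  induction i with
  | zero =>
    rw [qA_one hc, qA_zero, add_sub_cancel_left]
    rfl
  | succ i ih =>
    rw [dx_succ, ih (by omega), ← qA_turn hb hb0 hc (by omega)]

lemma vx_aW (hb : Even b) (hb0 : b ≠ 0) (hc : ArcL b L) (i : ℕ)
    (hi : i ≤ L.length + 1) : vx oo up (aW b L) i = qA b L i := by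
  induction i with
  | zero =>
    rw [qA_zero]
    rfl
  | succ i ih =>
    rw [vx_succ, ih (by omega), dx_aW hb hb0 hc i (by omega)]
    abel

lemma ps_foot {d : ℕ} : ps (2 * (d : ℤ), 0) = foot oo up d := by
  rw [k4_foot]
  unfold ps
  simp only
  rw [if_pos (by omega)]
  ext
  · rfl
  · show (3 * 0 - 2 * (d : ℤ)) / 2 = -(d : ℤ)
    omega

theorem aW_spec {d : ℕ} (hd : 1 ≤ d) (hc : ArcL (2 * d) L) :
    aW (2 * d) L ∈ Arc Hp ∅ oo up (foot oo up d) ∧ toL oo (aW (2 * d) L) = L := by
  have hpos := arcL_pos hc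
  have hb : Even (2 * (d : ℤ)) := even_two_mul _
  have hb0 : 2 * (d : ℤ) ≠ 0 := by omega
  have htip : tip oo up (aW (2 * d) L) = foot oo up d := by
    unfold tip
    rw [aW_length, vx_aW hb hb0 hc _ le_rfl]
    unfold qA
    rw [gA_last (Nat.lt_succ_self _), ps_foot]
  refine ⟨⟨⟨⟨?_, ?_⟩, ?_, ?_⟩, htip⟩, ?_⟩
  · intro i h1 h2
    rw [aW_length] at h2
    rw [Set.sdiff_empty, vx_aW hb hb0 hc i (by omega)]
    unfold qA
    rw [ps_mem_Hp]
    exact gA_row hc i h1 h2
  · intro i k h1 h2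
    rw [aW_length] at h2
    rw [vx_aW hb hb0 hc i (by omega), vx_aW hb hb0 hc k (by omega)]
    intro h
    exact gA_inj hb0 hc i k h1 (by omega) (ps_inj h)
  · rw [htip]
    exact foot_notMem _
  · rw [aW_length, dx_aW hb hb0 hc _ le_rfl]
    unfold qA
    rw [gA_last (Nat.lt_succ_self _), gA_len hc, ps_foot, k4_foot]
    unfold ps up
    simp only
    rw [if_neg (by omega)]
    ext
    · show 2 * (d : ℤ) - 2 * d = 0
      omega
    · show -(d : ℤ) - (3 * 1 - 1 - 2 * (d : ℤ)) / 2 = -1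
      omega
  · apply List.ext_getElem
    · rw [toL_length, aW_length]
    · intro i h1 h2
      rw [toL_getElem, vx_aW hb hb0 hc _ (by omega)]
      unfold qA
      rw [ph_ps, gA_succ h2]

end

/-- the two-point function is the sum over the lists -/
theorem sum_arcL {d : ℕ} (hd : 1 ≤ d) : ∑' L : {L // ArcL (2 * d) L}, CC.wt L = GH d := by
  let f : Arc Hp ∅ oo up (foot oo up d) → {L // ArcL (2 * d) L} := fun t => ⟨toL oo t.1, arc_toL t.2⟩
  have hf : Function.Bijective f := by
    constructor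
    · intro t s h
      exact Subtype.ext (arc_toL_inj t.2 s.2 (congrArg Subtype.val h))
    · rintro ⟨L, hL⟩
      obtain ⟨h1, h2⟩ := aW_spec hd hL
      exact ⟨⟨aW (2 * d) L, h1⟩, Subtype.ext h2⟩
  unfold GH gf
  rw [← (Equiv.ofBijective f hf).tsum_eq]
  apply tsum_congr
  intro t
  show CC.wt (toL oo t.1) = wE t.1
  exact CC.wt_toL _ _

/-- the boundary two-point function of the half plane, brick wall coordinates -/
noncomputable def G (d : ℕ) : ℝ≥0∞ := ∑' L : {L // ArcL (2 * d) L}, CC.wt L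

/-- the boundary two-point function is comparable with the bridge weight divided by the distance -/
theorem G_comp : ∃ c C : ℝ, 0 < c ∧ 0 < C ∧ ∀ d : ℕ, 1 ≤ d →
    ENNReal.ofReal (c / d) * CC.B d ≤ G d ∧ G d ≤ ENNReal.ofReal (C / d) * CC.B d := by
  obtain ⟨c, C, hc, hC, h⟩ := two_point
  refine ⟨c, C, hc, hC, fun d hd => ?_⟩
  have hd0 : (0 : ℝ) < d := by exact_mod_cast hd
  have e1 : G d = ENNReal.ofReal (gH d) := by
    unfold G gH
    rw [sum_arcL hd, ENNReal.ofReal_toReal (GH_ne_top hd)]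
  have e2 : CC.B d = ENNReal.ofReal (bT d) := by
    rw [CC.B_eq hd]
    exact (ofReal_bT hd).symm
  obtain ⟨h1, h2⟩ := h d hd
  rw [e1, e2, ← ENNReal.ofReal_mul (by positivity), ← ENNReal.ofReal_mul (by positivity)]
  constructor
  · apply ENNReal.ofReal_le_ofReal
    calc c / d * bT d = c * bT d / d := by ring
      _ ≤ gH d := h1
  · apply ENNReal.ofReal_le_ofReal
    calc gH d ≤ C * bT d / d := h2
      _ = C / d * bT d := by ring

end HexObs.TP
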