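import Pool.Agent.HexTP.Upper
import Pool.Agent.HexStep.Two

/-!
HexTP, module E: the lower bound for the weight of the arcs.
-/

set_option autoImplicit false

namespace HexObs.TP

open Complex Finset ENNReal HexObs

lemma U_eq (T : ℕ) : U T = ∑ k ∈ range T, bT (k + 1) := by
  unfold U
  induction T with
  | zero => simp
  | succ T ih => rw [Finset.sum_Icc_succ_top (by omega), ih, Finset.sum_range_succ]

lemma U_nonneg (T : ℕ) : 0 ≤ U T := Finset.sum_nonneg (fun t _ => bT_nonneg t)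

/-- the ratio -/
noncomputable def r0 : ℝ := 1 - 1 / (2 * K0)

lemma r0_nonneg : 0 ≤ r0 := by
  unfold r0
  have h := K0_gt
  rw [sub_nonneg, div_le_one (by positivity)]
  linarith

lemma r0_lt : r0 < 1 := by
  unfold r0
  have h := K0_gt
  have : 0 < 1 / (2 * K0) := by positivity
  linarith

lemma U_half {m : ℕ} (hm : 1 ≤ m) : U m ≤ r0 * U (2 * m) := by
  have hK := K0_gt
  have h1 : U (2 * m) = U m + ∑ k ∈ range m, bT (m + k + 1) := by
    rw [U_eq, U_eq, two_mul, Finset.sum_range_add]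
  have h2 : (m : ℝ) * bT (2 * m) ≤ ∑ k ∈ range m, bT (m + k + 1) := by
    have h3 : ∑ _k ∈ range m, bT (2 * m) ≤ ∑ k ∈ range m, bT (m + k + 1) := by
      apply Finset.sum_le_sum
      intro k hk
      rw [Finset.mem_range] at hk
      exact bT_anti (by omega) (by omega)
    rwa [Finset.sum_const, Finset.card_range, nsmul_eq_mul] at h3
  have h3 := U_le (T := 2 * m) (by omega)
  push_cast at h3
  have h4 : 1 / (2 * K0) * U (2 * m) ≤ m * bT (2 * m) := by
    rw [div_mul_eq_mul_div, one_mul, div_le_iff₀ (by positivity)]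
    calc U (2 * m) ≤ K0 * (2 * m * bT (2 * m)) := h3
      _ = m * bT (2 * m) * (2 * K0) := by ring
  unfold r0
  rw [sub_mul, one_mul]
  linarith

lemma U_pow {m : ℕ} (hm : 1 ≤ m) (j : ℕ) : U m ≤ r0 ^ j * U (2 ^ j * m) := by
  induction j with
  | zero => simp
  | succ j ih =>
    have h1 : 1 ≤ 2 ^ j * m := Nat.mul_pos (by positivity) hm
    have h2 := U_half h1
    have h3 : 2 * (2 ^ j * m) = 2 ^ (j + 1) * m := by ring
    rw [h3] at h2
    calc U m ≤ r0 ^ j * U (2 ^ j * m) := ih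
      _ ≤ r0 ^ j * (r0 * U (2 ^ (j + 1) * m)) := by
          apply mul_le_mul_of_nonneg_left h2 (pow_nonneg r0_nonneg j)
      _ = r0 ^ (j + 1) * U (2 ^ (j + 1) * m) := by ring

lemma tail_succ {T : ℕ} (hT : 1 ≤ T) (r : ℕ) :
    (tail T (r + 1)).toReal = gT T (r + 1) + (tail T (r + 2)).toReal := by
  have h1 := head_tail hT r
  have h2 := head_tail hT (r + 1)
  rw [Finset.sum_range_succ] at h2
  linarith

/-- Abel summation -/
lemma abel {T : ℕ} (hT : 1 ≤ T) (R : ℕ) : ∑ d ∈ range R, (tail T (d + 1)).toReal =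
    ∑ k ∈ range R, ((k : ℝ) + 1) * gT T (k + 1) + R * (tail T (R + 1)).toReal := by
  induction R with
  | zero => simp
  | succ R ih =>
    rw [Finset.sum_range_succ, Finset.sum_range_succ, ih]
    have h := tail_succ hT R
    push_cast
    rw [h]
    ring

/-- the ratio of the strip -/
noncomputable def q1 : ℝ := 2 - Real.sqrt 2

lemma q1_pos : 0 < q1 := by
  unfold q1
  have : Real.sqrt 2 < 2 := by
    rw [Real.sqrt_lt' (by norm_num)]
    norm_num
  linarith

lemma q1_le : q1 ≤ 3 / 5 := by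
  unfold q1
  have : 7 / 5 ≤ Real.sqrt 2 := by
    apply Real.le_sqrt_of_sq_le
    norm_num
  linarith

lemma geo (n : ℕ) : ∑ i ∈ range n, q1 ^ i ≤ 5 / 2 := by
  have h1 := q1_pos
  have h2 := q1_le
  have h3 : (1 - q1) * ∑ i ∈ range n, q1 ^ i = 1 - q1 ^ n := by
    have := mul_neg_geom_sum q1 n
    exact this
  have h4 : 0 < q1 ^ n := pow_pos h1 n
  have h5 : 0 ≤ ∑ i ∈ range n, q1 ^ i := Finset.sum_nonneg (fun i _ => (pow_pos h1 i).le)
  nlinarith

/-- blocks -/
lemma blocks {T M : ℕ} (hT : 1 ≤ T) (hM : 1 ≤ M) (n : ℕ) :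
    ∑ d ∈ range ((M + n) * T), (tail T (d + 1)).toReal ≤
      ∑ d ∈ range (M * T), (tail T (d + 1)).toReal +
        9000 * q1 ^ M * (T * bT T) * ∑ i ∈ range n, q1 ^ i := by
  induction n with
  | zero => simp
  | succ n ih =>
    have h1 : (M + (n + 1)) * T = (M + n) * T + T := by ring
    rw [h1, Finset.sum_range_add, Finset.sum_range_succ (fun i => q1 ^ i)]
    have h2 : ∑ y ∈ range T, (tail T ((M + n) * T + y + 1)).toReal ≤ T * (9000 * q1 ^ (M + n) * bT T) := by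
      have h3 : ∑ y ∈ range T, (tail T ((M + n) * T + y + 1)).toReal ≤
          ∑ _y ∈ range T, (9000 * q1 ^ (M + n) * bT T) := by
        apply Finset.sum_le_sum
        intro y _
        exact tail_exp hT (by omega) (by omega)
      rwa [Finset.sum_const, Finset.card_range, nsmul_eq_mul] at h3
    have h3 : (T : ℝ) * (9000 * q1 ^ (M + n) * bT T) = 9000 * q1 ^ M * (T * bT T) * q1 ^ n := by
      rw [pow_add]
      ring
    rw [h3] at h2
    rw [mul_add]
    linarith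

/-- the first moment -/
lemma kT_le' {T M : ℕ} (hT : 1 ≤ T) (hM : 1 ≤ M) : LP.kT T ≤
    ∑ d ∈ range (M * T), (tail T (d + 1)).toReal + 22500 * q1 ^ M * (T * bT T) := by
  have hb := bT_nonneg T
  have hq := q1_pos
  have hTp : (0 : ℝ) ≤ T := by positivity
  set X := ∑ d ∈ range (M * T), (tail T (d + 1)).toReal + 22500 * q1 ^ M * (T * bT T) with hX
  have hX0 : 0 ≤ X := by
    have := Finset.sum_nonneg (fun d (_ : d ∈ range (M * T)) => tail_nonneg T (d + 1))
    positivity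
  have h1 : LP.KT T ≤ ENNReal.ofReal X := by
    rw [LP.KT_eq, ← SP.B6.tsum_tail, ENNReal.tsum_eq_iSup_nat]
    apply iSup_le
    intro N
    have h2 : ∑ d ∈ range N, tail T (d + 1) ≤ ∑ d ∈ range ((M + N) * T), tail T (d + 1) := by
      apply Finset.sum_le_sum_of_subset
      apply Finset.range_subset_range.2
      calc N ≤ M + N := by omega
        _ = (M + N) * 1 := by ring
        _ ≤ (M + N) * T := Nat.mul_le_mul_left _ hT
    refine h2.trans ?_
    have h3 : ∑ d ∈ range ((M + N) * T), tail T (d + 1) =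
        ENNReal.ofReal (∑ d ∈ range ((M + N) * T), (tail T (d + 1)).toReal) := by
      rw [ENNReal.ofReal_sum_of_nonneg (fun d _ => tail_nonneg T _)]
      apply Finset.sum_congr rfl
      intro d _
      exact (ENNReal.ofReal_toReal (CB.tail_ne_top hT _)).symm
    rw [h3]
    apply ENNReal.ofReal_le_ofReal
    have h4 := blocks hT hM N
    have h5 := geo N
    have h6 : 9000 * q1 ^ M * (T * bT T) * ∑ i ∈ range N, q1 ^ i ≤ 9000 * q1 ^ M * (T * bT T) * (5 / 2) :=
      mul_le_mul_of_nonneg_left h5 (by positivity)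
    rw [hX]
    linarith
  have h2 := ENNReal.toReal_mono ENNReal.ofReal_ne_top h1
  rwa [ENNReal.toReal_ofReal hX0] at h2

/-- near and middle part -/
lemma near {T m R : ℕ} (hT : 1 ≤ T) (hm : 1 ≤ m) (hR : m ≤ R) :
    ∑ k ∈ range R, ((k : ℝ) + 1) * gT T (k + 1) ≤ C1 * U m + (R : ℝ) ^ 2 * gT T m := by
  obtain ⟨s, rfl⟩ := Nat.exists_eq_add_of_le hR
  rw [Finset.sum_range_add]
  apply add_le_add
  · rw [U_eq, Finset.mul_sum]
    apply Finset.sum_le_sum
    intro k _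
    have := gT_le hT (show 1 ≤ k + 1 by omega)
    push_cast at this
    exact this
  · have h1 : ∑ k ∈ range s, (((m + k : ℕ) : ℝ) + 1) * gT T (m + k + 1) ≤
        ∑ _k ∈ range s, (((m + s : ℕ) : ℝ) * gT T m) := by
      apply Finset.sum_le_sum
      intro k hk
      rw [Finset.mem_range] at hk
      apply mul_le_mul _ (gT_anti hT hm (by omega)) (gT_nonneg _ _) (by positivity)
      have : m + k + 1 ≤ m + s := by omega
      exact_mod_cast this
    rw [Finset.sum_const, Finset.card_range, nsmul_eq_mul] at h1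
    refine h1.trans ?_
    have h2 : (s : ℝ) ≤ ((m + s : ℕ) : ℝ) := by
      push_cast
      have : (0 : ℝ) ≤ m := by positivity
      linarith
    have h3 : 0 ≤ ((m + s : ℕ) : ℝ) * gT T m := mul_nonneg (by positivity) (gT_nonneg _ _)
    calc (s : ℝ) * (((m + s : ℕ) : ℝ) * gT T m) ≤ ((m + s : ℕ) : ℝ) * (((m + s : ℕ) : ℝ) * gT T m) :=
          mul_le_mul_of_nonneg_right h2 h3
      _ = ((m + s : ℕ) : ℝ) ^ 2 * gT T m := by ring

/-- the lower bound -/
theorem gT_ge : ∃ c : ℝ, 0 < c ∧ ∃ A : ℕ, 1 ≤ A ∧ ∀ d T : ℕ, 1 ≤ d → A * d ≤ T → c * bT d ≤ d * gT T d := by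
  obtain ⟨C2, hC2, hk⟩ := LP.TbT_le
  have hK := K0_gt
  have hC1 := C1_pos
  have hq := q1_pos
  have hq1 : q1 < 1 := by linarith [q1_le]
  -- the constants
  obtain ⟨j, hj⟩ : ∃ j : ℕ, C2 * C1 * K0 * r0 ^ j ≤ 1 / 4 := by
    obtain ⟨j, hj⟩ := exists_pow_lt_of_lt_one (show (0 : ℝ) < 1 / 4 / (C2 * C1 * K0) by positivity) r0_lt
    refine ⟨j, ?_⟩
    rw [lt_div_iff₀ (by positivity)] at hj
    linarith
  obtain ⟨M, hM1, hM⟩ : ∃ M : ℕ, 1 ≤ M ∧ C2 * (9000 * (M * q1 ^ M) + 22500 * q1 ^ M) ≤ 1 / 4 := by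
    have h1 : Filter.Tendsto (fun n : ℕ => C2 * (9000 * ((n : ℝ) * q1 ^ n) + 22500 * q1 ^ n)) Filter.atTop
        (nhds (C2 * (9000 * 0 + 22500 * 0))) :=
      (((tendsto_self_mul_const_pow_of_lt_one hq.le hq1).const_mul 9000).add
        ((tendsto_pow_atTop_nhds_zero_of_lt_one hq.le hq1).const_mul 22500)).const_mul C2
    have h2 : C2 * (9000 * 0 + 22500 * 0) < 1 / 4 := by norm_num
    have h3 := (h1.eventually (gt_mem_nhds h2)).and (Filter.eventually_ge_atTop 1)
    obtain ⟨M, h4, h5⟩ := h3.exists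
    exact ⟨M, h5, h4.le⟩
  have hMp : (0 : ℝ) < M := by exact_mod_cast hM1
  refine ⟨1 / (2 * C2 * K0 * M ^ 2 * (2 ^ j) ^ 2), by positivity, 2 ^ j, Nat.one_le_two_pow, ?_⟩
  intro m T' hm hT'
  set T := 2 ^ j * m with hTdef
  have hT : 1 ≤ T := Nat.mul_pos (by positivity) hm
  have hmT : m ≤ T := by
    rw [hTdef]
    exact Nat.le_mul_of_pos_left m (by positivity)
  have hb := bT_nonneg T
  have hTp : (0 : ℝ) < T := by exact_mod_cast hT
  have hmp : (0 : ℝ) < m := by exact_mod_cast hm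
  have hTc : (T : ℝ) = 2 ^ j * m := by
    rw [hTdef]
    push_cast
    ring
  have h1 := hk T hT
  have h2 := kT_le' hT hM1
  have h3 := abel hT (M * T)
  have h4 := near hT hm (show m ≤ M * T from hmT.trans (Nat.le_mul_of_pos_left T hM1))
  have h5 : (tail T (M * T + 1)).toReal ≤ 9000 * q1 ^ M * bT T := tail_exp hT hM1 (by omega)
  have h6 : U m ≤ r0 ^ j * (K0 * (T * bT T)) :=
    (U_pow hm j).trans (mul_le_mul_of_nonneg_left (U_le hT) (pow_nonneg r0_nonneg j))
  have hTb : 0 ≤ (T : ℝ) * bT T := mul_nonneg hTp.le hb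
  push_cast at h3 h4
  have h7 : LP.kT T ≤ C1 * (r0 ^ j * (K0 * (T * bT T))) + (M * T) ^ 2 * gT T m +
      (M * T) * (9000 * q1 ^ M * bT T) + 22500 * q1 ^ M * (T * bT T) := by
    have h8 : C1 * U m ≤ C1 * (r0 ^ j * (K0 * (T * bT T))) := mul_le_mul_of_nonneg_left h6 hC1.le
    have h9 : ((M : ℝ) * T) * (tail T (M * T + 1)).toReal ≤ (M * T) * (9000 * q1 ^ M * bT T) :=
      mul_le_mul_of_nonneg_left h5 (by positivity)
    linarith
  have h8 : (T : ℝ) * bT T ≤ 2 * C2 * (M * T) ^ 2 * gT T m := by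
    have h9 : C2 * LP.kT T ≤ (C2 * C1 * K0 * r0 ^ j) * (T * bT T) + C2 * (M * T) ^ 2 * gT T m +
        C2 * (9000 * (M * q1 ^ M) + 22500 * q1 ^ M) * (T * bT T) := by
      calc C2 * LP.kT T ≤ C2 * (C1 * (r0 ^ j * (K0 * (T * bT T))) + (M * T) ^ 2 * gT T m +
          (M * T) * (9000 * q1 ^ M * bT T) + 22500 * q1 ^ M * (T * bT T)) :=
            mul_le_mul_of_nonneg_left h7 hC2.le
        _ = _ := by ring
    have h10 : (C2 * C1 * K0 * r0 ^ j) * (T * bT T) ≤ 1 / 4 * (T * bT T) := mul_le_mul_of_nonneg_right hj hTb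
    have h11 : C2 * (9000 * (M * q1 ^ M) + 22500 * q1 ^ M) * (T * bT T) ≤ 1 / 4 * (T * bT T) :=
      mul_le_mul_of_nonneg_right hM hTb
    linarith
  have h9 := bT_doub hm hmT
  have h10 : bT m ≤ 2 * C2 * K0 * M ^ 2 * (2 ^ j) ^ 2 * (m * gT T m) := by
    have h11 : (m : ℝ) * bT m ≤ m * (2 * C2 * K0 * M ^ 2 * (2 ^ j) ^ 2 * (m * gT T m)) := by
      calc (m : ℝ) * bT m ≤ K0 * (T * bT T) := h9
        _ ≤ K0 * (2 * C2 * (M * T) ^ 2 * gT T m) := mul_le_mul_of_nonneg_left h8 (by linarith)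
        _ = m * (2 * C2 * K0 * M ^ 2 * (2 ^ j) ^ 2 * (m * gT T m)) := by
            rw [hTc]
            ring
    exact le_of_mul_le_mul_left h11 hmp
  have h11 : gT T m ≤ gT T' m := gT_mono (by omega) hT' m
  rw [div_mul_eq_mul_div, one_mul, div_le_iff₀ (by positivity)]
  calc bT m ≤ 2 * C2 * K0 * M ^ 2 * (2 ^ j) ^ 2 * (m * gT T m) := h10
    _ ≤ 2 * C2 * K0 * M ^ 2 * (2 ^ j) ^ 2 * (m * gT T' m) := by gcongr
    _ = m * gT T' m * (2 * C2 * K0 * M ^ 2 * (2 ^ j) ^ 2) := by ring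

end HexObs.TP
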