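import Pool.Agent.HexTP.SwapA
import Pool.Agent.HexObs.T3fin
import Pool.Agent.HexObs.Planar2
import Pool.Agent.HexW.T3Lim
import Pool.Agent.W47.K4

/-!
HexTP, module B: the weight of the arcs of the strip decreases with the distance of the end points.
-/

set_option autoImplicit false

namespace HexObs.TP

open Complex Finset ENNReal Filter Topology HexObs HexW

lemma Dn_trans (Ω X : Set Pt) (v c d0 : Pt) :
    Dn Ω X (v + c) d0 = Dn ((fun p => p + c) ⁻¹' Ω) ((fun p => p + c) ⁻¹' X) v d0 := by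
  ext t
  unfold Dn
  simp only [Set.mem_ofPred_eq]
  rw [saw_trans, tip_trans]
  rfl

lemma arc_trans (T : ℕ) (a b k : ℤ) : Arc (St T) ∅ (foot oo up (a + k)) up (foot oo up (b + k)) =
    Arc (St T) ∅ (foot oo up a) up (foot oo up b) := by
  unfold Arc
  rw [HexW.foot_add, HexW.foot_add, Dn_trans, St, strip_trans, Set.preimage_empty]
  ext t
  simp only [Set.mem_ofPred_eq, tip_trans]
  constructor
  · rintro ⟨h1, h2⟩
    exact ⟨h1, add_right_cancel h2⟩
  · rintro ⟨h1, h2⟩
    exact ⟨h1, by rw [h2]⟩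

/-- arcs from the foot a to the foot b -/
lemma arc_k4 (T : ℕ) (a b : ℤ) : gf (Arc (St T) ∅ (foot oo up a) up (foot oo up b)) = k4G T (b - a) := by
  have h := arc_trans T 0 (b - a) a
  rw [zero_add, sub_add_cancel] at h
  rw [h]
  have h0 : foot oo up 0 = oo := by
    rw [k4_foot]
    rfl
  rw [h0]
  rfl

lemma arc_gf_le {T : ℕ} (a : ℤ) (w : Pt) :
    gf (Arc (St T) ∅ (foot oo up a) up w) ≤ AT T := by
  refine (HexObs.gf_mono ?_).trans (gf_Dn_le (v0 := oo) up_mem (T := T) a ∅)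
  intro t ht
  exact ht.1

/-- the weight of the arcs of the strip decreases with the distance. -/
theorem GG_anti {T d : ℕ} (hT : 1 ≤ T) (hd : 1 ≤ d) : GG T (d + 1) ≤ GG T d := by
  have h0 := up_mem
  have k0 : |(0 : ℤ)| < ((2 : ℕ) : ℤ) := by norm_num
  have k1 : |(1 : ℤ)| < ((2 : ℕ) : ℤ) := by norm_num
  have hN' : ∀ {j : ℤ}, |j| < ((2 : ℕ) : ℤ) → ∀ n : ℕ, |j| < ((n + 2 : ℕ) : ℤ) := by
    intro j hj n
    push_cast at hj ⊢
    linarith
  have hd' : (1 : ℤ) ≤ d := by exact_mod_cast hd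
  set w := foot oo up (-(d : ℤ)) with hw
  have hA : AT T ≠ ∞ := AT_ne_top hT
  have t1 : gf (Arc (St T) ∅ (foot oo up 1) up w) ≠ ∞ := ne_top_of_le_ne_top hA (arc_gf_le 1 w)
  have t0 : gf (Arc (St T) ∅ (foot oo up 0) up w) ≠ ∞ := ne_top_of_le_ne_top hA (arc_gf_le 0 w)
  -- limits
  have l1 : Tendsto (fun n => (gf (Arc (trap oo up T (n + 2)) ∅ (foot oo up 1) up w)).toReal) atTop
      (𝓝 (gf (Arc (St T) ∅ (foot oo up 1) up w)).toReal) :=
    (ENNReal.tendsto_toReal t1).comp ((up_gf (fun X => inc_Arc h0 hT k1 w X)).tendsto ∅)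
  have l0 : Tendsto (fun n => (gf (Arc (trap oo up T (n + 2)) ∅ (foot oo up 0) up w)).toReal) atTop
      (𝓝 (gf (Arc (St T) ∅ (foot oo up 0) up w)).toReal) :=
    (ENNReal.tendsto_toReal t0).comp ((up_gf (fun X => inc_Arc h0 hT k0 w X)).tendsto ∅)
  have le0 : Tendsto (fun n => (gf (LatA (trap oo up T (n + 2)) ∅ (foot oo up 0) up)).toReal) atTop (𝓝 0) := by
    have e1 : Tendsto (fun n => gf (HexW.Lat (trap oo up T (n + 2)) ∅ true (foot oo up 0) up) +
        gf (HexW.Lat (trap oo up T (n + 2)) ∅ false (foot oo up 0) up)) atTop (𝓝 (0 + 0)) :=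
      (lat_tendsto h0 hT k0 true ∅).add (lat_tendsto h0 hT k0 false ∅)
    rw [add_zero] at e1
    have e2 : Tendsto (fun n => gf (LatA (trap oo up T (n + 2)) ∅ (foot oo up 0) up)) atTop (𝓝 0) :=
      tendsto_of_tendsto_of_tendsto_of_le_of_le tendsto_const_nhds e1 (fun _ => zero_le)
        (fun n => latA_le h0 hT (hN' k0 n) ∅)
    exact (ENNReal.tendsto_toReal ENNReal.zero_ne_top).comp e2
  have hleft := l1.const_mul (Real.sin (3 * (Real.pi / 8)))
  have hright := (l0.const_mul (Real.sin (3 * (Real.pi / 8)))).add (l1.mul le0)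
  have hlim := le_of_tendsto_of_tendsto' hleft hright (by
    intro n
    have g0 := trap_good_foot (v0 := oo) h0 hT (hN' k0 n)
    have g1 := trap_good_foot (v0 := oo) h0 hT (hN' k1 n)
    have h := mono_fin (w := w) g0 g1 (t3_ip_foot _ _ _ _) (by rw [t3_cl_foot, t3_cl_foot])
      (by rw [t3_cross_foot h0]; norm_num)
      (by rw [hw, t3_cross_foot h0]; linarith) (by rw [hw, t3_cross_foot h0]; linarith) (by
        intro v hv hcv hc hne
        obtain ⟨k, rfl⟩ := eq_foot (v0 := oo) (d0 := up) (p := v) h0 (by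
          have e : v - oo = (v - foot oo up 0) + (foot oo up 0 - oo) := by abel
          rw [e, ip_add_left, hv, k4_foot]
          decide)
        rw [t3_cross_foot h0] at hc ⊢
        have hk : k ≠ 1 := fun hk => hne (by rw [hk])
        omega)
    rw [← gf_toReal (arc_arr _ _ _ _ _), ← gf_toReal (arc_arr _ _ _ _ _), ← gf_toReal (lat_arr _ _ _ _),
      trapF_coe] at h
    exact h)
  rw [mul_zero, add_zero] at hlim
  have hs : 0 < Real.sin (3 * (Real.pi / 8)) := by
    apply Real.sin_pos_of_pos_of_lt_pi <;> linarith [Real.pi_pos]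
  have h2 := le_of_mul_le_mul_left hlim hs
  have h3 := (ENNReal.toReal_le_toReal t1 t0).1 h2
  rw [hw, arc_k4, arc_k4] at h3
  have e1 : (-(d : ℤ) - 1) = -((d + 1 : ℕ) : ℤ) := by push_cast; ring
  have e2 : (-(d : ℤ) - 0) = -((d : ℕ) : ℤ) := by ring
  rw [e1, e2, k4_symm, k4_symm] at h3
  exact h3

end HexObs.TP
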