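import Pool.Agent.HexObs.Slit2

/-!
Two-point function, module A: walker = arc from one of the feet p, q to a third foot w, explorer from the other
foot. The theta swap for arcs, the slit identity, planarity, and the comparison of the arcs from adjacent feet.
-/

set_option autoImplicit false

namespace HexObs

namespace TP

open Complex Finset

/-- theta swap for arcs, geometric part: the walk l from p hits the arc r c m from q to w at the end of r. -/
theorem swap_geoA {Ω X : Set Pt} {p q d0 w : Pt} (h0 : d0 ∈ dirs) (hhp : ∀ v ∈ Ω, 0 < ip (v - p) d0)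
    (hpq : ip (q - p) d0 = 0) (hne : p ≠ q) (hcl : cl p = cl q) (hwp : w ≠ p) {l r m : List Bool} {c : Bool}
    (hs : r ++ ([c] ++ m) ∈ Arc Ω X q d0 w) (hl : Saw (Ω \ (X ∪ vis q d0 (r ++ ([c] ++ m)))) p d0 l)
    (ht : tip p d0 l = tip q d0 r) :
    turn (!c) (dx d0 l l.length) = turn c (dx d0 r r.length) ∧
    turn c (dx d0 l l.length) = -(dx d0 r r.length) ∧
    l ++ ([!c] ++ m) ∈ Arc Ω X p d0 w ∧ Saw (Ω \ (X ∪ vis p d0 (l ++ ([!c] ++ m)))) q d0 r := by
  obtain ⟨⟨hs1, hs2, hs3⟩, hs4⟩ := hs
  set s := r ++ ([c] ++ m) with hsdef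
  have hslen : s.length = r.length + 1 + m.length := by
    rw [hsdef]
    simp only [List.length_append, List.length_singleton]
    omega
  have hqp : ∀ v ∈ Ω, v ≠ p := by
    intro v hv hvp
    have := hhp v hv
    rw [hvp, sub_self] at this
    simp [ip] at this
  have hqq : ∀ v ∈ Ω, v ≠ q := by
    intro v hv hvp
    have := hhp v hv
    rw [hvp, hpq] at this
    exact lt_irrefl _ this
  have er : ∀ i, i ≤ r.length + 1 → vx q d0 s i = vx q d0 r i := fun i hi => vx_append hi
  have hv : tip q d0 r = vx q d0 s (r.length + 1) := (er _ le_rfl).symm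
  have hvΩ : vx q d0 s (r.length + 1) ∈ Ω := (hs1.mem _ (by omega) (by omega)).1
  have hU := dx_mem h0 l l.length
  have hS := dx_mem h0 r r.length
  have eS : vx q d0 r (r.length + 1) = vx q d0 r r.length + dx d0 r r.length := vx_succ _ _ _ _
  have eU : vx p d0 l (l.length + 1) = vx p d0 l l.length + dx d0 l l.length := vx_succ _ _ _ _
  have ht' : vx p d0 l (l.length + 1) = vx q d0 r (r.length + 1) := ht
  have hvis : ∀ i, 1 ≤ i → i ≤ l.length → ∀ k, 1 ≤ k → k ≤ s.length → vx p d0 l i ≠ vx q d0 s k := by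
    intro i hi hil k hk hkl he
    exact (hl.mem i hi hil).2 (Or.inr ⟨k, hk, hkl, he.symm⟩)
  have hcd : cl (dx d0 l l.length) = cl (dx d0 r r.length) := by
    rw [cl_dx, cl_dx]
    have hpar := meet_parity h0 hcl ht
    by_cases he : Even l.length
    · rw [if_pos he, if_pos (hpar.1 he)]
    · rw [if_neg he, if_neg (fun h => he (hpar.2 h))]
  -- the two arrival directions are different
  have h1 : dx d0 l l.length ≠ dx d0 r r.length := by
    intro he
    have h2 : vx p d0 l l.length = vx q d0 r r.length := by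
      rw [eU, eS, he] at ht'
      exact add_right_cancel ht'
    rcases Nat.eq_zero_or_pos l.length with hl0 | hl0
    · have hp : vx p d0 l l.length = p := by
        rw [hl0]
        rfl
      rcases Nat.eq_zero_or_pos r.length with hr0 | hr0
      · have hq : vx q d0 r r.length = q := by
          rw [hr0]
          rfl
        exact hne (by rw [← hp, h2, hq])
      · have h3 := (hs1.mem r.length hr0 (by omega)).1
        rw [er _ (by omega), ← h2, hp] at h3
        exact hqp p h3 rfl
    · have h4 := (hl.mem l.length hl0 le_rfl).1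
      rcases Nat.eq_zero_or_pos r.length with hr0 | hr0
      · have hq : vx q d0 r r.length = q := by
          rw [hr0]
          rfl
        rw [h2, hq] at h4
        exact hqq q h4 rfl
      · exact hvis l.length hl0 le_rfl r.length hr0 (by omega) (by rw [er _ (by omega), h2])
  -- the explorer does not come along the stem
  have edst : dx d0 s (r.length + 1) = turn c (dx d0 r r.length) := by
    have := (vx_split q d0 r c m 0).2
    rw [add_zero] at this
    rw [hsdef, this]
    rfl
  have h2 : dx d0 l l.length ≠ -turn c (dx d0 r r.length) := by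
    intro he
    have h3 : vx p d0 l l.length = vx q d0 s (r.length + 2) := by
      have h4 : vx q d0 s (r.length + 2) = vx q d0 s (r.length + 1) + dx d0 s (r.length + 1) := vx_succ _ _ _ _
      rw [h4, edst, er _ le_rfl, ← ht', eU, he]
      abel
    rcases Nat.eq_zero_or_pos l.length with hl0 | hl0
    · have hp : vx p d0 l l.length = p := by
        rw [hl0]
        rfl
      rcases Nat.lt_or_ge s.length (r.length + 2) with h5 | h5
      · have h6 : r.length + 2 = s.length + 1 := by omega
        have h7 : p = tip q d0 s := by rw [← hp, h3, h6]; rfl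
        exact hwp (by rw [← hs4, ← h7])
      · have h6 := (hs1.mem (r.length + 2) (by omega) h5).1
        rw [← h3, hp] at h6
        exact hqp p h6 rfl
    · have h4 := (hl.mem l.length hl0 le_rfl).1
      rcases Nat.lt_or_ge s.length (r.length + 2) with h5 | h5
      · have h6 : r.length + 2 = s.length + 1 := by omega
        rw [h3, h6] at h4
        exact hs2 h4
      · exact hvis l.length hl0 le_rfl (r.length + 2) (by omega) h5 h3
  obtain ⟨hd1, hd2⟩ := swap_dirs _ hS _ hU c hcd h1 h2
  refine ⟨hd1, hd2, ?_, ?_⟩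
  -- the new arc
  · have est := fun k => vx_stem (m := m) ht hd1 k
    have hlen' : (l ++ ([!c] ++ m)).length = l.length + 1 + m.length := by
      simp only [List.length_append, List.length_singleton]
      omega
    have etip : tip p d0 (l ++ ([!c] ++ m)) = tip q d0 s := by
      show vx p d0 (l ++ ([!c] ++ m)) ((l ++ ([!c] ++ m)).length + 1) = vx q d0 s (s.length + 1)
      have e1 : (l ++ ([!c] ++ m)).length + 1 = l.length + 1 + (m.length + 1) := by omega
      rw [e1, (est (m.length + 1)).1]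
      have e2 : r.length + 1 + (m.length + 1) = s.length + 1 := by omega
      rw [e2]
    refine ⟨⟨⟨?_, ?_⟩, ?_, ?_⟩, ?_⟩
    · intro i hi hil
      rcases Nat.lt_or_ge l.length i with h3 | h3
      · obtain ⟨k, rfl⟩ := Nat.exists_eq_add_of_le (show l.length + 1 ≤ i by omega)
        rw [(est k).1]
        exact hs1.mem _ (by omega) (by omega)
      · rw [vx_append (by omega)]
        have := hl.mem i hi h3
        exact ⟨this.1, fun h => this.2 (Or.inl h)⟩
    · intro i k hik hkl
      rcases Nat.lt_or_ge l.length k with h3 | h3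
      · obtain ⟨k', rfl⟩ := Nat.exists_eq_add_of_le (show l.length + 1 ≤ k by omega)
        rw [(est k').1]
        rcases Nat.lt_or_ge l.length i with h4 | h4
        · obtain ⟨i', rfl⟩ := Nat.exists_eq_add_of_le (show l.length + 1 ≤ i by omega)
          rw [(est i').1]
          exact hs1.inj _ _ (by omega) (by omega)
        · rw [vx_append (by omega)]
          rcases Nat.eq_zero_or_pos i with hi0 | hi0
          · rw [hi0]
            exact fun he => hqp _ (hs1.mem (r.length + 1 + k') (by omega) (by omega)).1 he.symm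
          · exact hvis i hi0 h4 _ (by omega) (by omega)
      · rw [vx_append (by omega), vx_append (by omega)]
        exact hl.inj i k hik h3
    · rw [etip]
      exact hs2
    · rw [hlen', (est m.length).2, ← hslen]
      exact hs3
    · rw [etip]
      exact hs4
  · have est := fun k => vx_stem (m := m) ht hd1 k
    have hlen' : (l ++ ([!c] ++ m)).length = l.length + 1 + m.length := by
      simp only [List.length_append, List.length_singleton]
      omega
    refine ⟨?_, ?_⟩
    · intro i hi hil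
      have h3 := hs1.mem i hi (by omega)
      rw [er i (by omega)] at h3
      refine ⟨h3.1, ?_⟩
      rintro (h4 | ⟨k, hk, hkl, he⟩)
      · exact h3.2 h4
      · rcases Nat.lt_or_ge l.length k with h5 | h5
        · obtain ⟨k', rfl⟩ := Nat.exists_eq_add_of_le (show l.length + 1 ≤ k by omega)
          rw [(est k').1, ← er i (by omega)] at he
          exact hs1.inj i (r.length + 1 + k') (by omega) (by omega) he.symm
        · rw [vx_append (by omega), ← er i (by omega)] at he
          exact hvis k hk h5 i hi (by omega) he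
    · intro i k hik hkl
      have := hs1.inj i k hik (by omega)
      rwa [er i (by omega), er k (by omega)] at this

/-- the winding of an arc that lands on the left. -/
lemma arc_wind {Ω : Finset Pt} {q d0 w : Pt} (hq : GoodDom Ω q d0) (hw : 0 < cross d0 (w - q)) {X : Set Pt}
    {s : List Bool} (hs : s ∈ Arc (Ω : Set Pt) X q d0 w) : wind s = 3 := by
  obtain ⟨⟨h1, h2, h3⟩, h4⟩ := hs
  have harr : IsArr Ω q d0 s := ⟨fun i hi hil => (h1.mem i hi hil).1, h1.inj⟩
  have hex : s ∈ exits Ω q d0 := mem_exits.2 ⟨harr, h2⟩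
  rcases hq.bottom hex h3 with ⟨hc, hv⟩ | ⟨hc, hv⟩
  · exact hv
  · rw [h4] at hc
    exact absurd hc (not_lt.2 hw.le)

/-- theta swap for arcs, windings: q is on the right of p, w on the left of both. -/
theorem swap_windA {Ω : Finset Pt} {X : Set Pt} {p q d0 w : Pt} (hp : GoodDom Ω p d0) (hq : GoodDom Ω q d0)
    (hpq : ip (q - p) d0 = 0) (hcl : cl p = cl q) (hright : cross d0 (q - p) < 0)
    (hwp : 0 < cross d0 (w - p)) (hwq : 0 < cross d0 (w - q)) {l r m : List Bool} {c : Bool}
    (hs : r ++ ([c] ++ m) ∈ Arc (Ω : Set Pt) X q d0 w)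
    (hl : Saw ((Ω : Set Pt) \ (X ∪ vis q d0 (r ++ ([c] ++ m)))) p d0 l)
    (ht : tip p d0 l = tip q d0 r) : wind r = wind l + 2 := by
  have hne : p ≠ q := by
    rintro rfl
    rw [sub_self] at hright
    simp [cross] at hright
  have hnw : w ≠ p := by
    rintro rfl
    rw [sub_self] at hwp
    simp [cross] at hwp
  obtain ⟨_, hd2, hbr, _⟩ := swap_geoA hp.dir (fun v hv => hp.half v hv) hpq hne hcl hnw hs hl ht
  have w1 := arc_wind hq hwq hs
  have w2 := arc_wind hp hwp hbr
  have hs' := hs
  obtain ⟨⟨hs1, hs2, hs3⟩, _⟩ := hs'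
  have hslen : (r ++ ([c] ++ m)).length = r.length + 1 + m.length := by
    simp only [List.length_append, List.length_singleton]
    omega
  have er : ∀ i, i ≤ r.length + 1 → vx q d0 (r ++ ([c] ++ m)) i = vx q d0 r i := fun i hi => vx_append hi
  have hv : vx q d0 (r ++ ([c] ++ m)) (r.length + 1) = tip p d0 l := by
    rw [er _ le_rfl, ht]
    rfl
  have hvΩ : tip p d0 l ∈ Ω := by
    rw [← hv]
    exact (hs1.mem _ (by omega) (by omega)).1
  have hpo : ∀ v ∈ Ω, v ≠ p := by
    intro v hv hvp
    have := hp.half v hv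
    rw [hvp, sub_self] at this
    simp [ip] at this
  obtain ⟨hex, hdir, htip⟩ := arc_exit (c := c) (fun v hv => hp.half v hv) hpq (l := l) (r := r)
    ⟨fun i hi hil => (hl.mem i hi hil).1, hl.inj⟩
    ⟨fun i hi hil => by
        have := (hs1.mem i hi (by omega)).1
        rwa [er i (by omega)] at this,
      fun i k hik hkl => by
        have := hs1.inj i k hik (by omega)
        rwa [er i (by omega), er k (by omega)] at this⟩
    hvΩ
    (fun i hil => by
      rcases Nat.eq_zero_or_pos i with hi0 | hi0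
      · rw [hi0]
        exact fun h => hpo _ hvΩ h.symm
      · intro h
        exact (hl.mem i hi0 hil).2 (Or.inr ⟨r.length + 1, by omega, by omega, hv.trans h.symm⟩))
    (fun i hir => by
      have := hs1.inj i (r.length + 1) (by omega) (by omega)
      rw [hv] at this
      rwa [er i (by omega)] at this)
    (fun i k hi hil hk hkr h => (hl.mem i hi hil).2 (Or.inr ⟨k, hk, by omega, by rw [er k (by omega), h]⟩))
    ht hd2
  have w3 : wind (l ++ ([c] ++ rev r)) = -3 := by
    rcases hp.bottom hex hdir with ⟨h1, h2⟩ | ⟨h1, h2⟩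
    · rw [htip] at h1
      exact absurd h1 (not_lt.2 hright.le)
    · exact h2
  rw [wind_append, wind_cons, wind_rev] at w3
  rw [wind_append, wind_cons] at w1 w2
  cases c
  · simp only [sgn, Bool.not_false, if_true, Bool.false_eq_true, if_false] at w1 w2 w3
    omega
  · simp only [sgn, Bool.not_true, if_true, Bool.false_eq_true, if_false] at w1 w2 w3
    omega

lemma arc_arr (Ω : Finset Pt) (X : Set Pt) (v d0 w : Pt) : InArr Ω v d0 (Arc (Ω : Set Pt) X v d0 w) :=
  fun _ h => saw_arr h.1.1

lemma mem_arcF {Ω : Finset Pt} {X : Set Pt} {v d0 w : Pt} {t : List Bool} :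
    t ∈ fam Ω v d0 (Arc (Ω : Set Pt) X v d0 w) ↔ t ∈ Arc (Ω : Set Pt) X v d0 w := by
  rw [mem_fam]
  exact ⟨fun h => h.2, fun h => ⟨arc_arr _ _ _ _ _ _ h, h⟩⟩

/-- walker = arc from q to w, explorer from p that stops on the walker. -/
noncomputable def ZA (Ω : Finset Pt) (p q w d0 : Pt) (f : ℤ → ℝ) : ℝ :=
  ∑ s ∈ fam Ω q d0 (Arc (Ω : Set Pt) ∅ q d0 w), ∑ u ∈ hitF Ω ∅ (vis q d0 s) p d0,
    xc ^ (s.length + u.length) * f (wind u)

lemma swp_eqA {Ω X : Set Pt} {p q d0 w : Pt} {l r m : List Bool} {c : Bool}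
    (hs : r ++ ([c] ++ m) ∈ Arc Ω X q d0 w) (ht : tip p d0 l = tip q d0 r) :
    swp q p d0 (r ++ ([c] ++ m), l) = (l ++ ([!c] ++ m), r) := by
  have hp : pos q d0 (r ++ ([c] ++ m)) (tip p d0 l) = r.length + 1 := by
    apply pos_unique hs.1.1 (by omega)
    · simp only [List.length_append, List.length_singleton]
      omega
    · rw [vx_append le_rfl, ht]
      rfl
  unfold swp
  simp only [hp, Nat.add_sub_cancel]
  have e1 : tf (r ++ ([c] ++ m)) r.length = c := by
    have := tf_append_right (t := r) (s := [c] ++ m) 0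
    rw [add_zero] at this
    rw [this]
    rfl
  have e2 : (r ++ ([c] ++ m)).drop (r.length + 1) = m := by
    rw [← List.append_assoc]
    have : r.length + 1 = (r ++ [c]).length := by simp
    rw [this, List.drop_left]
  rw [e1, e2, List.take_left]

lemma hit_piecesA {p q d0 : Pt} {s u : List Bool} (ht : tip p d0 u ∈ vis q d0 s) :
    ∃ r c m, s = r ++ ([c] ++ m) ∧ tip p d0 u = tip q d0 r := by
  obtain ⟨i, hi, hil, hv⟩ := ht
  have h1 := take_split (t := s) (i := i - 1) (by omega)
  refine ⟨s.take (i - 1), tf s (i - 1), s.drop (i - 1 + 1), h1, ?_⟩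
  have h2 : (s.take (i - 1)).length = i - 1 := by
    rw [List.length_take]
    omega
  have h3 : vx q d0 s i = vx q d0 (s.take (i - 1)) i := by
    conv_lhs => rw [h1]
    exact vx_append (by omega)
  rw [← hv, h3]
  show _ = vx q d0 (s.take (i - 1)) ((s.take (i - 1)).length + 1)
  congr 1
  omega

/-- THE SWAP FOR ARCS. -/
theorem swap_sumA {Ω : Finset Pt} {p q d0 w : Pt} (hp : GoodDom Ω p d0) (hq : GoodDom Ω q d0)
    (hpq : ip (q - p) d0 = 0) (hcl : cl p = cl q) (hright : cross d0 (q - p) < 0)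
    (hwp : 0 < cross d0 (w - p)) (hwq : 0 < cross d0 (w - q)) (f : ℤ → ℝ) :
    ZA Ω q p w d0 f = ZA Ω p q w d0 (fun k => f (k + 2)) := by
  have hne : p ≠ q := by
    rintro rfl
    rw [sub_self] at hright
    simp [cross] at hright
  have hqp : ip (p - q) d0 = 0 := by
    have e : p - q = -(q - p) := by abel
    rw [e, ip_neg_left, hpq, neg_zero]
  have hnp : w ≠ p := by
    rintro rfl
    rw [sub_self] at hwp
    simp [cross] at hwp
  have hnq : w ≠ q := by
    rintro rfl
    rw [sub_self] at hwq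
    simp [cross] at hwq
  unfold ZA
  rw [Finset.sum_sigma', Finset.sum_sigma']
  symm
  refine Finset.sum_bij' (fun a _ => ⟨(swp q p d0 (a.1, a.2)).1, (swp q p d0 (a.1, a.2)).2⟩)
    (fun a _ => ⟨(swp p q d0 (a.1, a.2)).1, (swp p q d0 (a.1, a.2)).2⟩) ?_ ?_ ?_ ?_ ?_
  · rintro ⟨s, u⟩ ha
    rw [Finset.mem_sigma] at ha
    simp only at ha
    rw [mem_arcF, mem_hitF] at ha
    obtain ⟨hs, hu, ht⟩ := ha
    obtain ⟨r, c, m, rfl, ht'⟩ := hit_piecesA ht
    obtain ⟨_, _, h1, h2⟩ := swap_geoA hp.dir (fun v hv => hp.half v hv) hpq hne hcl hnp hs hu ht'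
    rw [Finset.mem_sigma]
    simp only [swp_eqA hs ht']
    rw [mem_arcF, mem_hitF]
    refine ⟨h1, h2, u.length + 1, by omega, by simp, ?_⟩
    rw [vx_append le_rfl, ← ht']
    rfl
  · rintro ⟨s, u⟩ ha
    rw [Finset.mem_sigma] at ha
    simp only at ha
    rw [mem_arcF, mem_hitF] at ha
    obtain ⟨hs, hu, ht⟩ := ha
    obtain ⟨r, c, m, rfl, ht'⟩ := hit_piecesA ht
    obtain ⟨_, _, h1, h2⟩ := swap_geoA hq.dir (fun v hv => hq.half v hv) hqp hne.symm hcl.symm hnq hs hu ht'
    rw [Finset.mem_sigma]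
    simp only [swp_eqA hs ht']
    rw [mem_arcF, mem_hitF]
    refine ⟨h1, h2, u.length + 1, by omega, by simp, ?_⟩
    rw [vx_append le_rfl, ← ht']
    rfl
  · rintro ⟨s, u⟩ ha
    rw [Finset.mem_sigma] at ha
    simp only at ha
    rw [mem_arcF, mem_hitF] at ha
    obtain ⟨hs, hu, ht⟩ := ha
    obtain ⟨r, c, m, rfl, ht'⟩ := hit_piecesA ht
    obtain ⟨_, _, h1, h2⟩ := swap_geoA hp.dir (fun v hv => hp.half v hv) hpq hne hcl hnp hs hu ht'
    simp only [swp_eqA hs ht', swp_eqA h1 ht'.symm, Bool.not_not]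
  · rintro ⟨s, u⟩ ha
    rw [Finset.mem_sigma] at ha
    simp only at ha
    rw [mem_arcF, mem_hitF] at ha
    obtain ⟨hs, hu, ht⟩ := ha
    obtain ⟨r, c, m, rfl, ht'⟩ := hit_piecesA ht
    obtain ⟨_, _, h1, h2⟩ := swap_geoA hq.dir (fun v hv => hq.half v hv) hqp hne.symm hcl.symm hnq hs hu ht'
    simp only [swp_eqA hs ht', swp_eqA h1 ht'.symm, Bool.not_not]
  · rintro ⟨s, u⟩ ha
    rw [Finset.mem_sigma] at ha
    simp only at ha
    rw [mem_arcF, mem_hitF] at ha
    obtain ⟨hs, hu, ht⟩ := ha
    obtain ⟨r, c, m, rfl, ht'⟩ := hit_piecesA ht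
    have hw := swap_windA hp hq hpq hcl hright hwp hwq hs hu ht'
    simp only [swp_eqA hs ht']
    rw [hw]
    congr 2
    simp only [List.length_append, List.length_singleton]
    omega

/-- the slit identity: explorer from p, walker = arc from q to w. -/
theorem slit_arc {Ω : Finset Pt} {p d0 : Pt} (hp : GoodDom Ω p d0) (q w : Pt) (m : ℝ) :
    Real.sin (m * (Real.pi / 8)) * gr Ω q d0 (Arc (Ω : Set Pt) ∅ q d0 w) =
      ∑ s ∈ fam Ω q d0 (Arc (Ω : Set Pt) ∅ q d0 w), xc ^ s.length *
        fr Ω p d0 (fun k => Real.sin ((m + k) * (Real.pi / 8))) (vis q d0 s) +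
      ZA Ω p q w d0 (fun k => Real.sin ((m + k) * (Real.pi / 8))) := by
  unfold gr ZA
  rw [Finset.mul_sum, ← Finset.sum_add_distrib]
  apply Finset.sum_congr rfl
  intro s hs
  rw [mem_arcF] at hs
  have hsub : vis q d0 s ⊆ (Ω : Set Pt) := by
    rintro v ⟨i, hi, hil, rfl⟩
    exact (hs.1.1.mem i hi hil).1
  have hid := identity_phase (slit Ω (∅ ∪ vis q d0 s)) hp.dir (fun v hv => hp.half v (mem_slit.1 hv).1) m
  have key := sum_exits_pair Ω (Set.disjoint_left.2 (fun _ h _ => h) : Disjoint (∅ : Set Pt) (vis q d0 s))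
    (Set.empty_subset _) hsub p d0 (fun k => Real.sin ((m + k) * (Real.pi / 8))) _ hid
  have e1 : ∑ u ∈ hitF Ω (vis q d0 s) ∅ p d0, xc ^ u.length * Real.sin ((m + wind u) * (Real.pi / 8)) = 0 := by
    apply Finset.sum_eq_zero
    intro u hu
    rw [mem_hitF] at hu
    exact absurd hu.2 (Set.notMem_empty _)
  rw [e1, add_zero, Set.empty_union] at key
  rw [key, add_mul, Finset.sum_mul, mul_comm (fr _ _ _ _ _)]
  congr 1
  apply Finset.sum_congr rfl
  intro u _
  rw [pow_add]
  ring

/-! ### planarity -/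

open Planar in
/-- two disjoint arcs do not cross. -/
theorem arcs_abs {a g : ℕ → ℤ × ℤ} {n m : ℕ} (ha : ∀ i, i ≤ n → Adj (a i) (a (i + 1))) (ha0 : (a 0).2 = 0)
    (han : (a (n + 1)).2 = 0) (hin : ∀ i, 1 ≤ i → i ≤ n → 0 < (a i).2)
    (hg : ∀ j, j ≤ m → Adj (g j) (g (j + 1))) (hg0 : (g 0).2 = 0) (hgin : ∀ j, 1 ≤ j → j ≤ m → 0 < (g j).2)
    (hgm : (g (m + 1)).2 = 0) (hdis : ∀ i, i ≤ n + 1 → ∀ j, j ≤ m + 1 → a i ≠ g j) :
    ((if (a 0).1 ≤ (g 0).1 then 1 else 0) + (if (a (n + 1)).1 ≤ (g 0).1 then 1 else 0) : ZMod 2) =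
      (if (a 0).1 ≤ (g (m + 1)).1 then 1 else 0) + (if (a (n + 1)).1 ≤ (g (m + 1)).1 then 1 else 0) := by
  have hm : 1 ≤ m := by
    by_contra hcon
    have hz : m = 0 := by omega
    subst hz
    have := hg 0 le_rfl
    unfold Adj EE at this
    omega
  have h1 := KK_path ha ha0 han (fun j hj => hg j hj.le) hg0 hgin (fun i hi j hj => hdis i hi j (by omega)) m le_rfl
  have h2 : KK a n (g (m + 1)) = KK a n (g m) := by
    have h3 := hgin m hm le_rfl
    rcases hg m le_rfl with h | h
    · exfalso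
      obtain ⟨e1, e2, e3⟩ := h
      omega
    · exact KK_adj ha ha0 han h h3 (fun i hi => hdis i hi (m + 1) le_rfl) (fun i hi => hdis i hi m (by omega))
  rw [← KK_bot ha ha0 han hin hg0, ← KK_bot ha ha0 han hin hgm, ← h1, h2]

/-- an explorer from p below the arc from q to w does not land on the right of q. -/
lemma dnr_arc {Ω : Finset Pt} {p q d0 w : Pt} (hp : GoodDom Ω p d0) (hq : GoodDom Ω q d0)
    (hpq : ip (q - p) d0 = 0) (hcl : cl p = cl q) (hright : cross d0 (q - p) < 0)
    (hwp : 0 < cross d0 (w - p)) {s u : List Bool} (hs : s ∈ Arc (Ω : Set Pt) ∅ q d0 w)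
    (hu : u ∈ Dn (Ω : Set Pt) (vis q d0 s) p d0) (hadj : ∀ v : Pt, ip (v - p) d0 = 0 → cl v = cl p →
      cross d0 (v - p) < 0 → v ≠ q → cross d0 (v - q) < 0) : ¬ cross d0 (tip p d0 u - p) < 0 := by
  intro hcr
  obtain ⟨⟨s1, s2, s3⟩, s4⟩ := hs
  obtain ⟨u1, u2, u3⟩ := hu
  have hexs : s ∈ exits Ω q d0 := mem_exits.2 ⟨saw_arr s1, s2⟩
  have hexu : u ∈ exits Ω p d0 := mem_exits.2 ⟨saw_arr u1, u2⟩
  have ls := hq.bottom_level hexs s3
  have lu := hp.bottom_level hexu u3
  have len : ∀ {v : Pt} {t : List Bool}, GoodDom Ω v d0 → dx d0 t t.length = -d0 → 1 ≤ t.length := by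
    intro v t hv h
    by_contra hcon
    have hz : t.length = 0 := by omega
    rw [hz] at h
    have hd' : d0 = -d0 := h
    obtain ⟨⟨_, _, _, _, a5⟩, _⟩ := dirs_distinct d0 hv.dir
    exact a5 hd'.symm
  have lens := len hq s3
  have lenu := len hp u3
  have e3 : ∀ v : Pt, ip (v - p) d0 = ip (v - q) d0 := by
    intro v
    have : v - p = (v - q) + (q - p) := by abel
    rw [this, ip_add_left, hpq, add_zero]
  have ps : ∀ i, 1 ≤ i → i ≤ s.length → 0 < ip (vx q d0 s i - p) d0 := fun i hi hil =>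
    hp.half _ (s1.mem i hi hil).1
  have pu : ∀ i, 1 ≤ i → i ≤ u.length → 0 < ip (vx p d0 u i - p) d0 := fun i hi hil =>
    hp.half _ (u1.mem i hi hil).1
  have clt : cl (tip p d0 u) = cl p := by
    have h5 : cl (dx d0 u u.length) = if Even u.length then cl d0 else - cl d0 := cl_dx _ _ _
    have h4 : ¬ Even u.length := by
      intro he
      rw [if_pos he, u3, cl_neg] at h5
      have h3' : (3 : ZMod 3) = 0 := three_eq
      apply cl_dir_ne hp.dir
      linear_combination (cl d0) * h3' + h5
    have h6 : cl (tip p d0 u) = if Even (u.length + 1) then cl p else cl p + cl d0 := cl_vx p d0 u (u.length + 1)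
    rw [h6, if_pos (Nat.even_add_one.2 h4)]
  -- the tip of the explorer is not q
  have hlast : vx p d0 u u.length = tip p d0 u + d0 := by
    rw [tip_eq, u3]
    abel
  have htq : tip p d0 u ≠ q := by
    intro he
    have h7 := (u1.mem u.length lenu le_rfl).2
    apply h7
    rw [hlast, he]
    exact ⟨1, le_rfl, lens, rfl⟩
  have hcq := hadj (tip p d0 u) lu clt hcr htq
  -- disjointness
  have hqs : vx q d0 s 0 = q := rfl
  have hps : vx p d0 u 0 = p := rfl
  have hdis : ∀ i, i ≤ s.length + 1 → ∀ j, j ≤ u.length + 1 → vx q d0 s i ≠ vx p d0 u j := by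
    intro i hi j hj he
    have li : (i = 0 ∨ i = s.length + 1) → ip (vx q d0 s i - p) d0 = 0 := by
      rintro (rfl | rfl)
      · rw [hqs]
        exact hpq
      · rw [e3]
        exact ls
    have lj : (j = 0 ∨ j = u.length + 1) → ip (vx p d0 u j - p) d0 = 0 := by
      rintro (rfl | rfl)
      · rw [hps, sub_self]
        simp [ip]
      · exact lu
    by_cases hi' : i = 0 ∨ i = s.length + 1
    · by_cases hj' : j = 0 ∨ j = u.length + 1
      · have cw : cross d0 (w - p) ≠ 0 := hwp.ne'
        rcases hi' with rfl | rfl <;> rcases hj' with rfl | rfl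
        · have : q = p := he
          rw [this, sub_self] at hright
          simp [cross] at hright
        · exact htq he.symm
        · have : w = p := by rw [← s4]; exact he
          rw [this, sub_self] at hwp
          simp [cross] at hwp
        · have : w = tip p d0 u := by rw [← s4]; exact he
          rw [this] at hwp
          exact absurd hwp (not_lt.2 hcr.le)
      · have h8 := pu j (by omega) (by omega)
        rw [← he, li hi'] at h8
        exact lt_irrefl _ h8
    · by_cases hj' : j = 0 ∨ j = u.length + 1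
      · have h8 := ps i (by omega) (by omega)
        rw [he, lj hj'] at h8
        exact lt_irrefl _ h8
      · exact (u1.mem j (by omega) (by omega)).2 ⟨i, by omega, by omega, he⟩
  have key := arcs_abs (a := fun i => xy p d0 (vx q d0 s i)) (g := fun j => xy p d0 (vx p d0 u j))
    (n := s.length) (m := u.length) (fun i _ => xy_adj hp.dir hcl.symm s i) hpq (by
      show ip (tip q d0 s - p) d0 = 0
      rw [e3]
      exact ls) ps
    (fun j _ => xy_adj hp.dir rfl u j) (by
      show ip (p - p) d0 = 0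
      rw [sub_self]
      simp [ip]) pu lu (fun i hi j hj h => hdis i hi j hj (xy_inj hp.dir h))
  have k1 : (xy p d0 (vx q d0 s 0)).1 = -(cross d0 (q - p)) := rfl
  have k2 : (xy p d0 (vx p d0 u 0)).1 = 0 := by
    show -(cross d0 (p - p)) = 0
    rw [sub_self]
    simp [cross]
  have k3 : (xy p d0 (vx q d0 s (s.length + 1))).1 = -(cross d0 (w - p)) := by
    rw [← s4]
    rfl
  have k4 : (xy p d0 (vx p d0 u (u.length + 1))).1 = -(cross d0 (tip p d0 u - p)) := rfl
  simp only [k1, k2, k3, k4] at key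
  have k5 : cross d0 (tip p d0 u - q) = cross d0 (tip p d0 u - p) - cross d0 (q - p) := by
    simp only [cross, Prod.fst_sub, Prod.snd_sub]
    ring
  rw [if_neg (by linarith), if_pos (by linarith), if_pos (by linarith), if_pos (by linarith)] at key
  revert key
  decide

/-- an explorer from p below the arc from q to w does not reach the top. -/
lemma br_arc {Ω : Finset Pt} {p q d0 w : Pt} (hp : GoodDom Ω p d0) (hq : GoodDom Ω q d0)
    (hpq : ip (q - p) d0 = 0) (hcl : cl p = cl q) (hright : cross d0 (q - p) < 0)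
    (hwp : 0 < cross d0 (w - p)) {s u : List Bool} (hs : s ∈ Arc (Ω : Set Pt) ∅ q d0 w)
    (hu : u ∈ Br (Ω : Set Pt) (vis q d0 s) p d0) : False := by
  have hne : q ≠ p := by
    rintro rfl
    rw [sub_self] at hright
    simp [cross] at hright
  obtain ⟨⟨s1, s2, s3⟩, s4⟩ := hs
  have h1 : u ∈ Br (Ω : Set Pt) ∅ p d0 := br_anti (Set.empty_subset _) hu
  have h2 : s ∈ Dn (Ω : Set Pt) (vis p d0 u) q d0 := by
    refine ⟨⟨?_, s1.inj⟩, s2, s3⟩
    intro i hi hil
    refine ⟨(s1.mem i hi hil).1, ?_⟩
    rintro ⟨k, hk, hkl, he⟩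
    exact (hu.1.mem k hk hkl).2 ⟨i, hi, hil, he.symm⟩
  have key := far_land hq hp hcl.symm hpq hne h1 subset_rfl h2
  rw [s4] at key
  exact absurd (key.2 hwp) (not_lt.2 hright.le)

/-- THE COMPARISON: the arcs from q to w weigh at most the arcs from p to w (q is the right neighbour of p, w on
the left), up to lateral exits. -/
theorem mono_fin {Ω : Finset Pt} {p q d0 w : Pt} (hp : GoodDom Ω p d0) (hq : GoodDom Ω q d0)
    (hpq : ip (q - p) d0 = 0) (hcl : cl p = cl q) (hright : cross d0 (q - p) < 0)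
    (hwp : 0 < cross d0 (w - p)) (hwq : 0 < cross d0 (w - q)) (hadj : ∀ v : Pt, ip (v - p) d0 = 0 → cl v = cl p →
      cross d0 (v - p) < 0 → v ≠ q → cross d0 (v - q) < 0) :
    Real.sin (3 * (Real.pi / 8)) * gr Ω q d0 (Arc (Ω : Set Pt) ∅ q d0 w) ≤
      Real.sin (3 * (Real.pi / 8)) * gr Ω p d0 (Arc (Ω : Set Pt) ∅ p d0 w) +
        gr Ω q d0 (Arc (Ω : Set Pt) ∅ q d0 w) * gr Ω p d0 (Lat (Ω : Set Pt) ∅ p d0) := by
  have hpi := Real.pi_pos
  have A := slit_arc hq p w 3
  have B := slit_arc hp q w 5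
  have S := swap_sumA hp hq hpq hcl hright hwp hwq (fun k => Real.sin ((3 + k) * (Real.pi / 8)))
  have S' : ZA Ω q p w d0 (fun k => Real.sin ((3 + k) * (Real.pi / 8))) =
      ZA Ω p q w d0 (fun k => Real.sin ((5 + k) * (Real.pi / 8))) := by
    rw [S]
    congr 1
    funext k
    congr 1
    push_cast
    ring
  have s5 : Real.sin (5 * (Real.pi / 8)) = Real.sin (3 * (Real.pi / 8)) := by
    rw [show 5 * (Real.pi / 8) = Real.pi - 3 * (Real.pi / 8) by ring, Real.sin_pi_sub]
  -- the free part of the first identity is not negative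
  have FA : 0 ≤ ∑ s ∈ fam Ω p d0 (Arc (Ω : Set Pt) ∅ p d0 w), xc ^ s.length *
      fr Ω q d0 (fun k => Real.sin ((3 + k) * (Real.pi / 8))) (vis p d0 s) := by
    apply Finset.sum_nonneg
    intro s _
    apply mul_nonneg (pow_nonneg xc_pos.le _)
    rw [fr_eq hq]
    have h1 := lat_nonneg hq (fun k => Real.sin ((3 + k) * (Real.pi / 8))) (vis p d0 s)
      (by push_cast; exact Real.sin_nonneg_of_nonneg_of_le_pi (by linarith) (by linarith))
      (by push_cast; exact Real.sin_nonneg_of_nonneg_of_le_pi (by linarith) (by linarith))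
      (by push_cast; exact Real.sin_nonneg_of_nonneg_of_le_pi (by linarith) (by linarith))
      (by push_cast; exact Real.sin_nonneg_of_nonneg_of_le_pi (by linarith) (by linarith))
    have h2 : 0 ≤ Real.sin ((3 + ((3 : ℤ) : ℝ)) * (Real.pi / 8)) := by
      push_cast
      exact Real.sin_nonneg_of_nonneg_of_le_pi (by linarith) (by linarith)
    have h3 : Real.sin ((3 + ((-3 : ℤ) : ℝ)) * (Real.pi / 8)) = 0 := by
      push_cast
      rw [show (3 + (-3 : ℝ)) * (Real.pi / 8) = 0 by ring, Real.sin_zero]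
    have h4 : 0 ≤ Real.sin ((3 + ((0 : ℤ) : ℝ)) * (Real.pi / 8)) := by
      push_cast
      exact Real.sin_nonneg_of_nonneg_of_le_pi (by linarith) (by linarith)
    have h5 := mul_nonneg h2 (gr_nonneg Ω q d0 (DnL (Ω : Set Pt) (vis p d0 s) q d0))
    have h6 := mul_nonneg h4 (gr_nonneg Ω q d0 (Br (Ω : Set Pt) (vis p d0 s) q d0))
    simp only [h3, zero_mul, add_zero]
    linarith
  -- the free part of the second identity
  have FB : ∑ s ∈ fam Ω q d0 (Arc (Ω : Set Pt) ∅ q d0 w), xc ^ s.length *
      fr Ω p d0 (fun k => Real.sin ((5 + k) * (Real.pi / 8))) (vis q d0 s) ≤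
      gr Ω q d0 (Arc (Ω : Set Pt) ∅ q d0 w) * gr Ω p d0 (Lat (Ω : Set Pt) ∅ p d0) := by
    unfold gr
    rw [Finset.sum_mul]
    apply Finset.sum_le_sum
    intro s hs
    rw [mem_arcF] at hs
    apply mul_le_mul_of_nonneg_left _ (pow_nonneg xc_pos.le _)
    rw [fr_eq hp]
    have h1 : gr Ω p d0 (Br (Ω : Set Pt) (vis q d0 s) p d0) = 0 := by
      unfold gr
      apply Finset.sum_eq_zero
      intro u hu
      exact absurd (br_arc hp hq hpq hcl hright hwp hs (mem_fam.1 hu).2) id
    have h2 : gr Ω p d0 (DnR (Ω : Set Pt) (vis q d0 s) p d0) = 0 := by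
      unfold gr
      apply Finset.sum_eq_zero
      intro u hu
      have h3 := (mem_fam.1 hu).2
      exact absurd h3.2 (dnr_arc hp hq hpq hcl hright hwp hs h3.1 hadj)
    have h3 : Real.sin ((5 + ((3 : ℤ) : ℝ)) * (Real.pi / 8)) = 0 := by
      push_cast
      rw [show (5 + (3 : ℝ)) * (Real.pi / 8) = Real.pi by ring, Real.sin_pi]
    simp only [h1, h2, h3, zero_mul, mul_zero, add_zero, zero_add]
    refine (lat_le (Ω := Ω) (p := p) (d0 := d0) (fun k => Real.sin ((5 + k) * (Real.pi / 8))) (vis q d0 s)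
      (fun k => Real.sin_le_one _)).trans ?_
    unfold gr
    apply Finset.sum_le_sum_of_subset_of_nonneg
    · intro u hu
      rw [mem_fam] at hu ⊢
      obtain ⟨h5, h6, h7, h8⟩ := hu
      exact ⟨h5, h6.mono (Set.sdiff_subset_sdiff_right (Set.empty_subset _)), h7, h8⟩
    · intro u _ _
      exact pow_nonneg xc_pos.le _
  rw [S'] at A
  rw [s5] at B
  linarith

end TP

end HexObs
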