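import Pool.Agent.HexTube.Final
import Pool.Agent.W47.IneqB

/-!
HexTP, module A2: the arcs that land at distance at least r weigh at most a constant times the corner weight.
-/

set_option autoImplicit false

namespace HexObs.TP

open Complex Finset ENNReal HexObs HexObs.Tube

/-- bottom right exits of the strip that are not exits of the part left of the gate -/
lemma bot_le [DecidableEq (List Bool)] {T L r r' : ℕ} (hT : 1 ≤ T) (hL : 1 ≤ L) (hr : 1 ≤ r) (hrr : r ≤ r')
    {A : Finset (List Bool)} (hA : ∀ t ∈ A, t ∈ exits (dF upm oo false T L r') oo up ∧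
      t ∉ exits (dF upm oo false T L r) oo up ∧ wind t = -3) :
    Real.cos (Real.pi / 4) * wS A ≤ wS (gE upm oo false T L r) := by
  have hs : dF upm oo false T L r ⊆ dF upm oo false T L r' := by
    intro v hv
    rw [mem_dF] at hv ⊢
    obtain ⟨h1, h2, h3⟩ := hv
    have h6 : ip (v - oo) (rotR up) < 3 * r := h3
    have h7 : (r : ℤ) ≤ r' := by exact_mod_cast hrr
    refine ⟨h1, h2, ?_⟩
    show ip (v - oo) (rotR up) < 3 * r'
    linarith
  have h1 := two_dom upm (dF_half upm oo false T L r) (dF_half upm oo false T L r') (Real.pi / 8)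
  have hr' : 1 ≤ r' := by omega
  have h2 : ∑ t ∈ A, fb (Real.pi / 8) t ≤
      ∑ t ∈ exits (dF upm oo false T L r') oo up \ exits (dF upm oo false T L r) oo up, fb (Real.pi / 8) t := by
    apply Finset.sum_le_sum_of_subset_of_nonneg
    · intro t ht
      obtain ⟨h3, h4, _⟩ := hA t ht
      exact Finset.mem_sdiff.2 ⟨h3, h4⟩
    · intro t ht _
      exact fb_nonneg abs1 (dm_wind upm false hT hL hr' (Finset.mem_sdiff.1 ht).1)
  have h3 : ∑ t ∈ exits (dF upm oo false T L r) oo up \ exits (dF upm oo false T L r') oo up, fb (Real.pi / 8) t ≤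
      ∑ t ∈ gE upm oo false T L r, fb (Real.pi / 8) t := by
    apply Finset.sum_le_sum_of_subset_of_nonneg
    · intro t ht
      obtain ⟨h4, h5⟩ := Finset.mem_sdiff.1 ht
      refine Finset.mem_filter.2 ⟨h4, exit_gate upm oo (k' := false) (r' := r') hT hL hr h4 ?_⟩
      by_contra hcon
      obtain ⟨ha, _⟩ := mem_exits.1 h4
      exact h5 (mem_exits.2 ⟨⟨fun i h6 h7 => hs (ha.mem i h6 h7), ha.inj⟩, hcon⟩)
    · intro t ht _
      exact fb_nonneg abs1 (dm_wind upm false hT hL hr (Finset.mem_filter.1 ht).1)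
  rw [sum_fb_const (w := -3) (fun t ht => (hA t ht).2.2)] at h2
  rw [sum_fb_const (gE_wind upm oo false hT hL hr)] at h3
  have e1 : ((-3 : ℤ) : ℝ) * (Real.pi / 8) + Real.pi / 8 = -(Real.pi / 4) := by
    push_cast
    ring
  have e2 : (gw false : ℝ) * (Real.pi / 8) + Real.pi / 8 = 0 := by
    show ((-1 : ℤ) : ℝ) * (Real.pi / 8) + Real.pi / 8 = _
    push_cast
    ring
  rw [e1, Real.cos_neg] at h2
  rw [e2, Real.cos_zero, one_mul] at h3
  linarith

/-- arcs that land at distance at least r -/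
lemma gf_far_arc (T r : ℕ) (hT : 1 ≤ T) (hr : 1 ≤ r) :
    ENNReal.ofReal (Real.cos (Real.pi / 4)) *
      gf {t | t ∈ out (St T) oo up (-up) ∧ ∃ k : ℕ, r ≤ k ∧ tip oo up t = foot oo up k} ≤ sc T r := by
  classical
  have hc : 0 < Real.cos (Real.pi / 4) := by
    rw [Real.cos_pi_div_four]
    positivity
  have hc0 : ENNReal.ofReal (Real.cos (Real.pi / 4)) ≠ 0 := by
    rw [Ne, ENNReal.ofReal_eq_zero]
    linarith
  rw [mul_comm, ← ENNReal.le_div_iff_mul_le (Or.inl hc0) (Or.inl ENNReal.ofReal_ne_top)]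
  set P := {t | t ∈ out (St T) oo up (-up) ∧ ∃ k : ℕ, r ≤ k ∧ tip oo up t = foot oo up k} with hP
  apply gf_le_of_mono_union (fun L => {t | t ∈ P ∧ Saw (trap oo up T (L + 1)) oo up t})
  · intro L L' h t ht
    exact ⟨ht.1, ht.2.mono (trap_mono oo up T (by omega))⟩
  · intro t ht
    rw [Set.mem_iUnion]
    obtain ⟨L, hL⟩ := saw_trap ht.1.1
    exact ⟨L, ht, hL⟩
  · intro L
    apply gf_le_of_finset
    intro A hAF
    have key : Real.cos (Real.pi / 4) * wS A ≤ wS (gE upm oo false T (L + r + 1) r) := by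
      apply bot_le hT (by omega) hr (r' := L + r + 1) (by omega)
      intro t ht
      obtain ⟨⟨⟨b1, b2, b3⟩, k, hk, hfar⟩, hsaw⟩ := hAF (Finset.mem_coe.2 ht)
      have hr0 : (0 : ℤ) ≤ r := by positivity
      have hrk : (r : ℤ) ≤ k := by exact_mod_cast hk
      have hr1 : (1 : ℤ) ≤ r := by exact_mod_cast hr
      have hsub : trap oo up T (L + 1) ⊆ dm oo up false T (L + r + 1) (L + r + 1) := by
        rintro v ⟨h1, h2, h3⟩
        refine ⟨h1, ?_, ?_⟩
        · push_cast at h2 ⊢
          linarith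
        · show ip (v - oo) (rotR up) < 3 * ((L + r + 1 : ℕ) : ℤ)
          push_cast at h3 ⊢
          linarith
      have hex : t ∈ exits (dF upm oo false T (L + r + 1) (L + r + 1)) oo up := by
        refine mem_exits.2 ⟨⟨fun j h3 h4 => ?_, b1.inj⟩, fun h5 => ?_⟩
        · rw [mem_dF]
          exact hsub (hsaw.mem j h3 h4)
        · rw [mem_dF] at h5
          exact b2 h5.1
      have hlen : 1 ≤ t.length := by
        by_contra hcon
        have hz : t.length = 0 := by omega
        rw [hz] at b3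
        have h2 : up = -up := b3
        exact absurd h2 (by decide)
      refine ⟨hex, ?_, ?_⟩
      · intro hcon
        obtain ⟨c1, _⟩ := mem_exits.1 hcon
        have h5 := c1.mem t.length hlen le_rfl
        rw [mem_dF] at h5
        have h6 : ip (vx oo up t t.length - oo) (rotR up) < 3 * r := h5.2.2
        have h7 : vx oo up t t.length = foot oo up k + up := by
          rw [← hfar, tip_eq, b3]
          abel
        rw [h7, k4_foot] at h6
        have h8 : ip (((2 * (k : ℤ), -(k : ℤ)) : Pt) + up - oo) (rotR up) = 3 * k + 1 := by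
          unfold ip rotR up oo
          simp only [Prod.fst_sub, Prod.snd_sub, Prod.fst_add, Prod.snd_add]
          ring
        rw [h8] at h6
        linarith
      · have hg := dm_good (v0 := oo) upm false hT (show 1 ≤ L + r + 1 by omega) (show 1 ≤ L + r + 1 by omega)
        rcases hg.bottom hex b3 with ⟨hc, _⟩ | ⟨_, hv⟩
        · exfalso
          rw [hfar, k4_foot] at hc
          have h8 : cross up (((2 * (k : ℤ), -(k : ℤ)) : Pt) - oo) = -2 * k := by
            unfold cross up oo
            simp only [Prod.fst_sub, Prod.snd_sub]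
            ring
          rw [h8] at hc
          linarith
        · exact hv
    rw [ENNReal.le_div_iff_mul_le (Or.inl hc0) (Or.inl ENNReal.ofReal_ne_top), gf_finset, mul_comm,
      ← ENNReal.ofReal_mul hc.le]
    exact (ENNReal.ofReal_le_ofReal key).trans (gE_le_sc hT (by omega) hr)

lemma tail_eq (T r : ℕ) : tail T r =
    gf {t | t ∈ out (St T) oo up (-up) ∧ ∃ k : ℕ, r ≤ k ∧ tip oo up t = foot oo up k} := by
  have h0 : up ∈ dirs := by decide
  have h1 : tail T r = gf (⋃ k : ℕ, outAt (St T) oo up (foot oo up ((r + k : ℕ) : ℤ)) (-up)) := by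
    rw [CB.gf_iUnion_disj]
    · unfold tail
      apply tsum_congr
      intro k
      rw [CB.GG_eq]
      rfl
    · intro i j hij
      rw [Set.disjoint_left]
      rintro t ⟨_, g1⟩ ⟨_, g2⟩
      rw [g1] at g2
      have h3 := CB.foot_inj h0 oo g2
      push_cast at h3
      omega
  rw [h1]
  congr 1
  ext t
  rw [Set.mem_iUnion]
  constructor
  · rintro ⟨k, h2, h3⟩
    exact ⟨h2, r + k, by omega, h3⟩
  · rintro ⟨h2, k, h3, h4⟩
    refine ⟨k - r, h2, ?_⟩
    rw [Nat.add_sub_cancel' h3]
    exact h4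

/-- the tail of the arcs is at most √2 times the corner weight -/
theorem tail_le {T r : ℕ} (hT : 1 ≤ T) (hr : 1 ≤ r) : (tail T r).toReal ≤ Real.sqrt 2 * (sc T r).toReal := by
  have h1 := gf_far_arc T r hT hr
  rw [← tail_eq] at h1
  have h2 := ENNReal.toReal_mono (sc_top T r hT hr) h1
  have hc : 0 < Real.cos (Real.pi / 4) := by
    rw [Real.cos_pi_div_four]
    positivity
  rw [ENNReal.toReal_mul, ENNReal.toReal_ofReal hc.le, Real.cos_pi_div_four] at h2
  have h3 : Real.sqrt 2 * Real.sqrt 2 = 2 := Real.mul_self_sqrt (by norm_num)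
  have h4 := mul_le_mul_of_nonneg_left h2 (Real.sqrt_nonneg 2)
  have h5 : Real.sqrt 2 * (Real.sqrt 2 / 2 * (tail T r).toReal) = (tail T r).toReal := by
    rw [show Real.sqrt 2 * (Real.sqrt 2 / 2 * (tail T r).toReal) =
      (Real.sqrt 2 * Real.sqrt 2) / 2 * (tail T r).toReal by ring, h3]
    ring
  rw [h5] at h4
  exact h4

/-- exponential decay of the tails -/
theorem tail_exp {T m r : ℕ} (hT : 1 ≤ T) (hm : 1 ≤ m) (hr : m * T ≤ r) :
    (tail T r).toReal ≤ 9000 * (2 - Real.sqrt 2) ^ m * bT T := by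
  have hmT : 1 ≤ m * T := Nat.mul_pos hm hT
  have h1 := tail_le hT (hmT.trans hr)
  have h2 : (sc T r).toReal ≤ (sc T (m * T)).toReal :=
    ENNReal.toReal_mono (sc_top T _ hT hmT) (sc_anti' hT hmT hr)
  have h3 := lat1 T m hT hm
  have h4 : Real.sqrt 2 ≤ 3 / 2 := by
    rw [Real.sqrt_le_iff]
    norm_num
  have h5 : 0 ≤ (sc T r).toReal := ENNReal.toReal_nonneg
  calc (tail T r).toReal ≤ Real.sqrt 2 * (sc T r).toReal := h1
    _ ≤ 3 / 2 * (sc T r).toReal := mul_le_mul_of_nonneg_right h4 h5
    _ ≤ 3 / 2 * (6000 * (2 - Real.sqrt 2) ^ m * bT T) := by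
        apply mul_le_mul_of_nonneg_left (h2.trans h3) (by norm_num)
    _ = 9000 * (2 - Real.sqrt 2) ^ m * bT T := by ring

end HexObs.TP
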