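import Pool.Agent.HexTP.Mono
import Pool.Agent.HexTP.TailSc
import Pool.Agent.HexLoop.KInf
import Pool.Agent.W47.Final

/-!
HexTP, module C: the upper bound for the weight of the arcs, and the half plane.
-/

set_option autoImplicit false

namespace HexObs.TP

open Complex Finset ENNReal HexObs

/-- arcs of the strip of height T over the distance k, as a real number -/
noncomputable def gT (T k : ℕ) : ℝ := (GG T k).toReal

lemma gT_nonneg (T k : ℕ) : 0 ≤ gT T k := ENNReal.toReal_nonneg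

lemma GG_ne_top {T : ℕ} (hT : 1 ≤ T) (k : ℕ) : GG T k ≠ ∞ := by
  apply ne_top_of_le_ne_top (AT_ne_top hT)
  unfold GG
  have h0 : foot oo up 0 = oo := by
    rw [k4_foot]
    rfl
  have := arc_gf_le (T := T) 0 (foot oo up k)
  rwa [h0] at this

lemma gT_anti_succ {T k : ℕ} (hT : 1 ≤ T) (hk : 1 ≤ k) : gT T (k + 1) ≤ gT T k :=
  ENNReal.toReal_mono (GG_ne_top hT k) (GG_anti hT hk)

/-- the weight decreases with the distance -/
lemma gT_anti {T k l : ℕ} (hT : 1 ≤ T) (hk : 1 ≤ k) (h : k ≤ l) : gT T l ≤ gT T k := by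
  induction l, h using Nat.le_induction with
  | base => exact le_rfl
  | succ l hl ih => exact (gT_anti_succ hT (by omega)).trans ih

/-- arcs of a lower strip are arcs of a higher strip -/
lemma arc_mono {S T k : ℕ} (h : S ≤ T) : Arc (St S) ∅ oo up (foot oo up k) ⊆ Arc (St T) ∅ oo up (foot oo up k) := by
  intro t ht
  rw [k4_arc] at ht ⊢
  obtain ⟨⟨h1, h2, h3⟩, h4⟩ := ht
  refine ⟨⟨h1.mono (strip_mono _ _ h), ?_, h3⟩, h4⟩
  rw [h4]
  intro h5
  have h6 : 0 < ip (foot oo up k - oo) up := h5.2.1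
  rw [k4_foot] at h6
  have h8 : ip (((2 * (k : ℤ), -(k : ℤ)) : Pt) - oo) up = 0 := by
    unfold ip up oo
    simp only [Prod.fst_sub, Prod.snd_sub]
    ring
  rw [h8] at h6
  exact lt_irrefl _ h6

lemma GG_mono {S T : ℕ} (h : S ≤ T) (k : ℕ) : GG S k ≤ GG T k := gf_mono (arc_mono h)

lemma gT_mono {S T : ℕ} (hT : 1 ≤ T) (h : S ≤ T) (k : ℕ) : gT S k ≤ gT T k :=
  ENNReal.toReal_mono (GG_ne_top hT k) (GG_mono h k)

/-- half of the weight of the arcs: head and tail -/
lemma head_tail {T : ℕ} (hT : 1 ≤ T) (d : ℕ) :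
    2 * (∑ y ∈ range d, gT T (y + 1) + (tail T (d + 1)).toReal) = aT T := by
  have h1 := head_add_tail T d
  have h2 := arcs_total hT
  rw [← h1] at h2
  have h3 : ∑ y ∈ range d, GG T (y + 1) ≠ ∞ := ENNReal.sum_ne_top.2 (fun y _ => GG_ne_top hT _)
  have h4 : tail T (d + 1) ≠ ∞ := CB.tail_ne_top hT _
  unfold aT
  rw [h2, ENNReal.toReal_mul, ENNReal.toReal_add h3 h4, ENNReal.toReal_sum (fun y _ => GG_ne_top hT _)]
  rfl

lemma tail_nonneg (T r : ℕ) : 0 ≤ (tail T r).toReal := ENNReal.toReal_nonneg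

/-- the constant of the upper bound -/
noncomputable def C0 : ℝ := 1 / (2 * Real.cos (3 * Real.pi / 8)) + 9000

lemma C0_pos : 0 < C0 := by
  have := cos3_pos
  unfold C0
  positivity

/-- the main upper bound -/
theorem up1 {S D : ℕ} (hD : 1 ≤ D) (hS : D ≤ S) : D * gT S (2 * D) ≤ C0 * bT D := by
  have hS1 : 1 ≤ S := by omega
  have h1 := head_tail hS1 (2 * D)
  have h2 := head_tail hD D
  have h3 := bT_add_aT hS1
  have h4 := bT_add_aT hD
  have hc := cos3_pos
  have hbS := bT_nonneg S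
  have hbD := bT_nonneg D
  have htS := tail_nonneg S (2 * D + 1)
  have h5 : ∑ y ∈ range D, gT D (y + 1) ≤ ∑ y ∈ range D, gT S (y + 1) :=
    Finset.sum_le_sum (fun y _ => gT_mono hS1 hS _)
  have h6 : ∑ y ∈ range (2 * D), gT S (y + 1) = ∑ y ∈ range D, gT S (y + 1) +
      ∑ y ∈ range D, gT S (D + y + 1) := by
    rw [two_mul, Finset.sum_range_add]
  have h7 : (D : ℝ) * gT S (2 * D) ≤ ∑ y ∈ range D, gT S (D + y + 1) := by
    have h8 : ∑ _y ∈ range D, gT S (2 * D) ≤ ∑ y ∈ range D, gT S (D + y + 1) := by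
      apply Finset.sum_le_sum
      intro y hy
      rw [Finset.mem_range] at hy
      exact gT_anti hS1 (by omega) (by omega)
    rw [Finset.sum_const, Finset.card_range, nsmul_eq_mul] at h8
    exact h8
  have h8 : (tail D (D + 1)).toReal ≤ 9000 * bT D := by
    have h9 := tail_exp (T := D) (m := 1) (r := D + 1) hD le_rfl (by omega)
    have h10 : (2 - Real.sqrt 2) ^ 1 ≤ 1 := by
      rw [pow_one]
      have := Real.one_le_sqrt.2 (by norm_num : (1 : ℝ) ≤ 2)
      linarith
    calc (tail D (D + 1)).toReal ≤ 9000 * (2 - Real.sqrt 2) ^ 1 * bT D := h9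
      _ ≤ 9000 * 1 * bT D := by
          apply mul_le_mul_of_nonneg_right _ hbD
          linarith
      _ = 9000 * bT D := by ring
  have h9 : (D : ℝ) * gT S (2 * D) ≤ (aT S - aT D) / 2 + 9000 * bT D := by linarith
  have h10 : Real.cos (3 * Real.pi / 8) * (aT S - aT D) ≤ bT D := by linarith
  have h11 : (aT S - aT D) / 2 ≤ 1 / (2 * Real.cos (3 * Real.pi / 8)) * bT D := by
    rw [div_mul_eq_mul_div, one_mul, le_div_iff₀ (by positivity)]
    linarith
  unfold C0
  linarith

/-- sums of the bridge weights -/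
noncomputable def U (T : ℕ) : ℝ := ∑ t ∈ Finset.Icc 1 T, bT t

/-- the constant of the regularity of the bridge weights -/
noncomputable def K0 : ℝ := 2 + CW

lemma CW_pos : 0 < CW := by
  unfold CW
  have h1 : 1 < Real.sqrt 2 := by
    rw [Real.lt_sqrt (by norm_num)]
    norm_num
  have h2 : 0 < Real.sqrt 2 - 1 := by linarith
  positivity

lemma K0_gt : 2 < K0 := by
  unfold K0
  linarith [CW_pos]

lemma U_le {T : ℕ} (hT : 1 ≤ T) : U T ≤ K0 * (T * bT T) := W47_final.1 T hT

lemma bT_anti {S T : ℕ} (hS : 1 ≤ S) (h : S ≤ T) : bT T ≤ bT S := by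
  induction T, h using Nat.le_induction with
  | base => exact le_rfl
  | succ T hT ih => exact (bT_antitone (by omega)).trans ih

lemma U_ge {S T : ℕ} (h : S ≤ T) : S * bT S ≤ U T := by
  rcases Nat.eq_zero_or_pos S with rfl | hS
  · simp only [Nat.cast_zero, zero_mul]
    exact Finset.sum_nonneg (fun t _ => bT_nonneg t)
  · have h1 : ∑ _t ∈ Finset.Icc 1 S, bT S ≤ ∑ t ∈ Finset.Icc 1 S, bT t := by
      apply Finset.sum_le_sum
      intro t ht
      rw [Finset.mem_Icc] at ht
      exact bT_anti ht.1 ht.2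
    rw [Finset.sum_const, Nat.card_Icc, Nat.add_sub_cancel, nsmul_eq_mul] at h1
    refine h1.trans ?_
    apply Finset.sum_le_sum_of_subset_of_nonneg
    · exact Finset.Icc_subset_Icc le_rfl h
    · intro t _ _
      exact bT_nonneg t

/-- doubling of the bridge weights -/
lemma bT_doub {S T : ℕ} (hS : 1 ≤ S) (h : S ≤ T) : S * bT S ≤ K0 * (T * bT T) :=
  (U_ge h).trans (U_le (by omega))

/-- the upper bound with a uniform constant -/
noncomputable def C1 : ℝ := 3 * C0 * (3 * K0) + 2 / Real.cos (3 * Real.pi / 8) / bT 1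

lemma C1_pos : 0 < C1 := by
  have h1 := C0_pos
  have h2 := K0_gt
  have h3 := cos3_pos
  have h4 := bT_pos (le_refl 1)
  unfold C1
  positivity

/-- arcs of the strips: upper bound -/
theorem gT_le {S d : ℕ} (hS : 1 ≤ S) (hd : 1 ≤ d) : d * gT S d ≤ C1 * bT d := by
  have hc := cos3_pos
  have hb := bT_pos (T := 1) le_rfl
  have hbd := bT_pos hd
  have hC := C0_pos
  have hK := K0_gt
  have hd0 : (1 : ℝ) ≤ d := by exact_mod_cast hd
  rcases Nat.lt_or_ge d 2 with h | h
  · have hd1 : d = 1 := by omega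
    subst hd1
    have h1 := head_tail hS 1
    have h2 := bT_add_aT hS
    have h3 := bT_nonneg S
    have h4 := tail_nonneg S (1 + 1)
    rw [Finset.sum_range_one, zero_add] at h1
    have h5 : gT S 1 ≤ 2 / Real.cos (3 * Real.pi / 8) := by
      rw [le_div_iff₀ hc]
      have h6 : gT S 1 ≤ aT S := by
        have := gT_nonneg S 1
        linarith
      have := mul_le_mul_of_nonneg_left h6 hc.le
      linarith
    rw [Nat.cast_one, one_mul]
    unfold C1
    have h7 : 0 ≤ 3 * C0 * (3 * K0) * bT 1 := by positivity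
    have h8 : 2 / Real.cos (3 * Real.pi / 8) / bT 1 * bT 1 = 2 / Real.cos (3 * Real.pi / 8) :=
      div_mul_cancel₀ _ hb.ne'
    rw [add_mul, h8]
    linarith
  · -- d ≥ 2
    set D := d / 2 with hD
    have hD1 : 1 ≤ D := by omega
    have hDd : 2 * D ≤ d := by omega
    have hd3 : d ≤ 3 * D := by omega
    set S' := max S D with hS'
    have h1 := up1 (S := S') hD1 (le_max_right _ _)
    have h2 : gT S d ≤ gT S' (2 * D) :=
      (gT_mono (by omega) (le_max_left _ _) d).trans (gT_anti (by omega) (by omega) hDd)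
    have h3 := bT_doub hD1 (show D ≤ d by omega)
    have hd3' : (d : ℝ) ≤ 3 * D := by exact_mod_cast hd3
    have hDp : (0 : ℝ) < D := by exact_mod_cast hD1
    have h4 : bT D ≤ 3 * K0 * bT d := by
      have h5 : (D : ℝ) * bT D ≤ D * (3 * K0 * bT d) := by
        calc (D : ℝ) * bT D ≤ K0 * (d * bT d) := h3
          _ ≤ K0 * (3 * D * bT d) := by gcongr
          _ = D * (3 * K0 * bT d) := by ring
      exact le_of_mul_le_mul_left h5 hDp
    have h6 : d * gT S d ≤ 3 * C0 * (3 * K0) * bT d := by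
      calc (d : ℝ) * gT S d ≤ 3 * D * gT S' (2 * D) := by
            apply mul_le_mul hd3' h2 (gT_nonneg _ _) (by positivity)
        _ = 3 * (D * gT S' (2 * D)) := by ring
        _ ≤ 3 * (C0 * bT D) := by linarith
        _ ≤ 3 * (C0 * (3 * K0 * bT d)) := by gcongr
        _ = 3 * C0 * (3 * K0) * bT d := by ring
    unfold C1
    have h7 : 0 ≤ 2 / Real.cos (3 * Real.pi / 8) / bT 1 * bT d := by positivity
    rw [add_mul]
    linarith

end HexObs.TP
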